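import Pool.Agent.Lib.SE.Iface

/-!
# PROJECT SE, part G4 (b): the traces of `i` on the eigenspaces of a new Jacobian

`delta_J`: for the new part `J` of the Jacobian of `y ^ m = ∏_j (x - s_j) ^ b_j` the trace of the
multiplication by `i` on `H^1(J, ℂ)_φ` is `i (2 p_u - r)`, `u = sg m ζ (τ ∘ φ)`, `p_u` the number of the
`i < r` with `m i + ∑_j (u b_j mod m) < m r`.
-/

set_option autoImplicit false

open scoped ComplexConjugate
open HC

noncomputable section

namespace HC.SE

open _root_.SE _root_.SE.S4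

namespace DeltaAux

/-! ## Counting -/

theorem card_lt (r k : ℕ) (hk : k ≤ r) :
    (Finset.univ.filter fun i : Fin r => (i : ℕ) < k).card = k := by
  have h : (Finset.univ.filter fun i : Fin r => (i : ℕ) < k) =
      (Finset.univ : Finset (Fin k)).map (Fin.castLEEmb hk) := by
    ext i
    simp only [Finset.mem_filter, Finset.mem_univ, true_and, Finset.mem_map, Fin.castLEEmb_apply]
    constructor
    · intro hi
      exact ⟨⟨i, hi⟩, by ext; rfl⟩
    · rintro ⟨j, rfl⟩
      exact j.2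
  rw [h, Finset.card_map, Finset.card_univ, Fintype.card_fin]

theorem card_p {m r S : ℕ} (hm : 0 < m) (h : ¬ m ∣ S) :
    (Finset.univ.filter fun i : Fin r => m * (i : ℕ) + S < m * r).card = r - S / m := by
  rw [← card_lt r (r - S / m) (Nat.sub_le _ _)]
  congr 1
  ext i
  simp only [Finset.mem_filter, Finset.mem_univ, true_and]
  have h1 := Nat.div_add_mod S m
  have h2 := Nat.mod_lt S hm
  have h3 : 0 < S % m := Nat.pos_of_ne_zero (fun h0 => h (Nat.dvd_of_mod_eq_zero h0))
  constructor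
  · intro hi
    have h4 : m * ((i : ℕ) + S / m) < m * r := by
      rw [mul_add]
      omega
    have h5 := lt_of_mul_lt_mul_left h4 (Nat.zero_le m)
    omega
  · intro hi
    have h5 : (i : ℕ) + S / m + 1 ≤ r := by omega
    have h6 := Nat.mul_le_mul_left m h5
    rw [mul_add, mul_add, mul_one] at h6
    omega

/-- `∑_j (u b_j mod m)` -/
def SS (m : ℕ) {r : ℕ} (b : Fin (r + 1) → ℕ) (u : ℕ) : ℕ := ∑ j, (u * b j) % m

theorem SS_compl {m r : ℕ} {b : Fin (r + 1) → ℕ} (hm : 0 < m) (hb : ∀ j, ¬ m ∣ b j) {u : ℕ}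
    (hu : u ≤ m) (huc : u.Coprime m) : SS m b (m - u) + SS m b u = m * (r + 1) := by
  unfold SS
  rw [← Finset.sum_add_distrib]
  rw [Finset.sum_congr rfl fun j _ => mod_compl hm hu (not_dvd_mul huc (hb j))]
  rw [Finset.sum_const, Finset.card_univ, Fintype.card_fin, smul_eq_mul, mul_comm]

theorem not_dvd_SS {m r : ℕ} {b : Fin (r + 1) → ℕ} (hs : ¬ m ∣ ∑ j, b j) {u : ℕ}
    (huc : u.Coprime m) : ¬ m ∣ SS m b u := by
  intro h
  apply not_dvd_mul huc hs
  rw [Finset.mul_sum]
  apply Nat.dvd_of_mod_eq_zero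
  rw [Finset.sum_nat_mod]
  exact Nat.mod_eq_zero_of_dvd h

/-- the number of the differentials -/
def pu (m : ℕ) {r : ℕ} (b : Fin (r + 1) → ℕ) (u : ℕ) : ℕ :=
  (Finset.univ.filter fun i : Fin r => m * (i : ℕ) + ∑ j, (u * b j) % m < m * r).card

theorem pu_add {m r : ℕ} {b : Fin (r + 1) → ℕ} (hm : 0 < m) (hb : ∀ j, ¬ m ∣ b j)
    (hs : ¬ m ∣ ∑ j, b j) {u : ℕ} (hu : u ≤ m) (huc : u.Coprime m)
    (huc' : (m - u).Coprime m) : pu m b u + pu m b (m - u) = r := by
  have h1 : pu m b u = r - SS m b u / m := card_p hm (not_dvd_SS hs huc)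
  have h2 : pu m b (m - u) = r - SS m b (m - u) / m := card_p hm (not_dvd_SS hs huc')
  have h3 := SS_compl hm hb hu huc
  have h4 := Nat.div_add_mod (SS m b u) m
  have h5 := Nat.div_add_mod (SS m b (m - u)) m
  have h6 := Nat.mod_lt (SS m b u) hm
  have h7 := Nat.mod_lt (SS m b (m - u)) hm
  have h8 : 0 < SS m b u % m :=
    Nat.pos_of_ne_zero (fun h0 => not_dvd_SS hs huc (Nat.dvd_of_mod_eq_zero h0))
  have h9 : 0 < SS m b (m - u) % m :=
    Nat.pos_of_ne_zero (fun h0 => not_dvd_SS hs huc' (Nat.dvd_of_mod_eq_zero h0))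
  have h10 : SS m b (m - u) / m + SS m b u / m = r := by
    have h11 : m * (SS m b (m - u) / m + SS m b u / m) < m * (r + 1) := by
      rw [mul_add]
      omega
    have h12 := lt_of_mul_lt_mul_left h11 (Nat.zero_le m)
    have h13 : m * r < m * (SS m b (m - u) / m + SS m b u / m + 1) := by
      rw [mul_add, mul_add, mul_one]
      rw [mul_add, mul_one] at h3
      omega
    have h14 := lt_of_mul_lt_mul_left h13 (Nat.zero_le m)
    omega
  rw [h1, h2]
  clear h1 h2 h3 h4 h5 h6 h7 h8 h9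
  generalize SS m b u / m = A at *
  generalize SS m b (m - u) / m = B at *
  omega

theorem coprime_sub {m u : ℕ} (hu : u ≤ m) (h : u.Coprime m) : (m - u).Coprime m := by
  have h1 : Nat.gcd (m - u) m = Nat.gcd u m := by
    rw [Nat.gcd_comm (m - u) m, Nat.gcd_comm u m]
    exact Nat.gcd_self_sub_right hu
  show Nat.gcd (m - u) m = 1
  rw [h1]
  exact h

/-! ## The differentials in one eigenspace -/

section forms

variable {m r : ℕ} {s : Fin (r + 1) → ℂ} {b : Fin (r + 1) → ℕ} {J : AV} (D : New J m s b)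

include D in
theorem om_pow (hm : 0 < m) (k : ℕ) : ∀ x ∉ D.γ.S, ∀ y, D.γ.P (x, y) = 0 →
    D.γ.P (x, ze m ^ k * y) = 0 ∧ D.γ.ω x (ze m ^ k * y) = (D.Z ^ k) (D.γ.ω x y) := by
  intro x hx y hy
  induction k with
  | zero => simpa using hy
  | succ k ih =>
    obtain ⟨h1, h2⟩ := ih
    have hz : ze m ^ m = 1 := (ze_prim hm).pow_eq_one
    have e : ze m ^ (k + 1) * y = ze m * (ze m ^ k * y) := by ring
    constructor
    · rw [D.P] at h1 ⊢
      rw [e, mul_pow (ze m), hz, one_mul]
      exact h1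
    · rw [e]
      have h3 := D.equ x hx (ze m ^ k * y) h1
      change D.γ.ω x (ze m * (ze m ^ k * y)) = _ at h3
      rw [h3, h2, pow_succ', Module.End.mul_apply]

theorem form_aeval (hm : 0 < m) {u i : ℕ} {B : J.V →ₗ[ℂ] ℂ}
    (hB : ∀ x ∉ D.γ.S, ∀ y, D.γ.P (x, y) = 0 →
      B (D.γ.ω x y) = x ^ i * y ^ u / ∏ j, (x - s j) ^ (1 + u * b j / m)) (q : Polynomial ℂ) :
    ∀ x ∉ D.γ.S, ∀ y, D.γ.P (x, y) = 0 →
      B ((Polynomial.aeval D.Z q) (D.γ.ω x y)) = q.eval (ze m ^ u) * B (D.γ.ω x y) := by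
  intro x hx y hy
  induction q using Polynomial.induction_on' with
  | add p q hp hq =>
    rw [map_add, LinearMap.add_apply, map_add, hp, hq, Polynomial.eval_add, add_mul]
  | monomial k c =>
    obtain ⟨h1, h2⟩ := om_pow D hm k x hx y hy
    rw [Polynomial.aeval_monomial, Polynomial.eval_monomial, Module.algebraMap_end_eq_smul_id,
      Module.End.mul_apply, LinearMap.smul_apply, LinearMap.id_apply, map_smul, ← h2,
      hB x hx _ h1, hB x hx y hy, smul_eq_mul]
    ring

theorem exists_forms (hcov : IsCov m s b) {u : ℕ} (hu : u < m) (huc : u.Coprime m) :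
    ∃ f : {i : Fin r // m * (i : ℕ) + ∑ j, (u * b j) % m < m * r} → (J.V →ₗ[ℂ] ℂ),
      (∀ i v, f i (D.Z v) = ze m ^ u * f i v) ∧
      ∀ c : {i : Fin r // m * (i : ℕ) + ∑ j, (u * b j) % m < m * r} → ℂ,
        (∀ v, ∑ i, c i * f i v = 0) → ∀ i, c i = 0 := by
  have hm3 := hcov.1
  have hm : 0 < m := by omega
  have : NeZero m := ⟨hm.ne'⟩
  have : NeZero (m : ℂ) := ⟨Nat.cast_ne_zero.mpr hm.ne'⟩
  choose B hB using fun i : {i : Fin r // m * (i : ℕ) + ∑ j, (u * b j) % m < m * r} =>
    D.dif u hu huc i.1 i.2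
  have hχ : IsPrimitiveRoot (ze m ^ u) m := ((ze_prim hm).pow_iff_coprime hm u).2 huc
  have hroot : (Polynomial.cyclotomic m ℂ).IsRoot (ze m ^ u) :=
    Polynomial.isRoot_cyclotomic_iff.2 hχ
  obtain ⟨q, hq⟩ := Polynomial.dvd_iff_isRoot.2 hroot
  have hq0 : q.eval (ze m ^ u) ≠ 0 := by
    intro h0
    obtain ⟨q', hq'⟩ := Polynomial.dvd_iff_isRoot.2 (show q.IsRoot (ze m ^ u) from h0)
    have hsq := Polynomial.squarefree_cyclotomic m ℂ
    have h1 : (Polynomial.X - Polynomial.C (ze m ^ u)) * (Polynomial.X - Polynomial.C (ze m ^ u)) ∣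
        Polynomial.cyclotomic m ℂ := ⟨q', by rw [hq, hq', mul_assoc]⟩
    exact Polynomial.not_isUnit_X_sub_C _ (hsq _ h1)
  have hcyc : Polynomial.aeval D.Z (Polynomial.cyclotomic m ℂ) = 0 := by
    rw [← Polynomial.map_cyclotomic_int m ℂ, ← algebraMap_int_eq, Polynomial.aeval_map_algebraMap]
    exact D.cyc
  have hZ : ∀ v, D.Z ((Polynomial.aeval D.Z q) v) = ze m ^ u • (Polynomial.aeval D.Z q) v := by
    intro v
    rw [hq, map_mul] at hcyc
    have h1 := LinearMap.congr_fun hcyc v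
    rw [Module.End.mul_apply, map_sub, Polynomial.aeval_X, Polynomial.aeval_C,
      Module.algebraMap_end_eq_smul_id, LinearMap.sub_apply, LinearMap.smul_apply,
      LinearMap.id_apply, LinearMap.zero_apply] at h1
    exact sub_eq_zero.1 h1
  have hcomm : ∀ v, (Polynomial.aeval D.Z q) (D.Z v) = D.Z ((Polynomial.aeval D.Z q) v) := by
    intro v
    have h1 : Commute (Polynomial.aeval D.Z q) D.Z := by
      have h2 : Commute (Polynomial.aeval D.Z q) (Polynomial.aeval D.Z Polynomial.X) :=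
        Commute.map (Commute.all q Polynomial.X) (Polynomial.aeval D.Z)
      rwa [Polynomial.aeval_X] at h2
    exact LinearMap.congr_fun h1.eq v
  refine ⟨fun i => (B i) ∘ₗ (Polynomial.aeval D.Z q), fun i v => ?_, fun c hc i => ?_⟩
  · rw [LinearMap.comp_apply, LinearMap.comp_apply, hcomm, hZ, map_smul, smul_eq_mul]
  · -- the polynomial `∑ c_i X ^ i` vanishes outside `S`
    let p : Polynomial ℂ := ∑ i, Polynomial.monomial (i.1 : ℕ) (c i)
    have hp : ∀ x ∉ D.γ.S, p.eval x = 0 := by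
      intro x hx
      have hx' : ∀ j, x - s j ≠ 0 := by
        intro j h
        apply hx
        rw [D.S]
        exact ⟨j, (sub_eq_zero.1 h).symm⟩
      obtain ⟨y, hy⟩ := IsAlgClosed.exists_pow_nat_eq (∏ j, (x - s j) ^ b j) hm
      have hP : D.γ.P (x, y) = 0 := by
        rw [D.P, hy, sub_self]
      have hy0 : y ≠ 0 := by
        intro h0
        rw [h0, zero_pow hm.ne'] at hy
        exact (Finset.prod_ne_zero_iff.2 fun j _ => pow_ne_zero _ (hx' j)) hy.symm
      have h1 := hc (D.γ.ω x y)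
      have h2 : ∀ i, ((B i) ∘ₗ (Polynomial.aeval D.Z q)) (D.γ.ω x y) =
          x ^ (i.1 : ℕ) * (q.eval (ze m ^ u) * y ^ u / ∏ j, (x - s j) ^ (1 + u * b j / m)) := by
        intro i
        rw [LinearMap.comp_apply, form_aeval D hm (hB i) q x hx y hP, hB i x hx y hP]
        ring
      simp only [h2] at h1
      have h3 : ∑ i, c i * (x ^ (i.1 : ℕ) *
          (q.eval (ze m ^ u) * y ^ u / ∏ j, (x - s j) ^ (1 + u * b j / m))) =
          p.eval x * (q.eval (ze m ^ u) * y ^ u / ∏ j, (x - s j) ^ (1 + u * b j / m)) := by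
        rw [Polynomial.eval_finsetSum, Finset.sum_mul]
        refine Finset.sum_congr rfl fun i _ => ?_
        rw [Polynomial.eval_monomial]
        ring
      rw [h3] at h1
      have h4 : q.eval (ze m ^ u) * y ^ u / ∏ j, (x - s j) ^ (1 + u * b j / m) ≠ 0 :=
        div_ne_zero (mul_ne_zero hq0 (pow_ne_zero _ hy0))
          (Finset.prod_ne_zero_iff.2 fun j _ => pow_ne_zero _ (hx' j))
      exact (mul_eq_zero.1 h1).resolve_right h4
    have hp0 : p = 0 := by
      apply Polynomial.eq_zero_of_infinite_isRoot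
      have h1 : (D.γ.S)ᶜ ⊆ {x | p.IsRoot x} := fun x hx => hp x hx
      exact (D.γ.fin.infinite_compl).mono h1
    have h1 : p.coeff (i.1 : ℕ) = c i := by
      show (∑ i, Polynomial.monomial (i.1 : ℕ) (c i) : Polynomial ℂ).coeff (i.1 : ℕ) = c i
      rw [Polynomial.finsetSum_coeff]
      rw [Finset.sum_eq_single i]
      · rw [Polynomial.coeff_monomial, if_pos rfl]
      · intro k _ hk
        rw [Polynomial.coeff_monomial, if_neg]
        intro h
        exact hk (Subtype.ext (Fin.ext h))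
      · intro h
        exact absurd (Finset.mem_univ i) h
    rw [← h1, hp0, Polynomial.coeff_zero]

end forms

/-! ## The eigenspace -/

section eig

variable {T : AV}

/-- the 1-forms with `a (Z v) = χ a v` -/
def W (Z : Module.End ℂ T.V) (χ : ℂ) : Submodule ℂ (T.V →ₗ[ℝ] ℂ) where
  carrier := {a | ∀ v, a (Z v) = χ * a v}
  add_mem' := by
    intro a a' h h' v
    rw [LinearMap.add_apply, LinearMap.add_apply, h v, h' v, mul_add]
  zero_mem' := by
    intro v
    simp
  smul_mem' := by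
    intro c a h v
    rw [LinearMap.smul_apply, LinearMap.smul_apply, h v, smul_eq_mul, smul_eq_mul, mul_left_comm]

/-- multiplication by `i` on `W` -/
def JW (Z : Module.End ℂ T.V) (χ : ℂ) : W Z χ →ₗ[ℂ] W Z χ where
  toFun a := ⟨a.1 ∘ₗ mulI T, by
    intro v
    show a.1 (Complex.I • Z v) = χ * a.1 (Complex.I • v)
    rw [← map_smul, a.2]⟩
  map_add' _ _ := rfl
  map_smul' _ _ := rfl

theorem JW_apply (Z : Module.End ℂ T.V) (χ : ℂ) (a : W Z χ) (v : T.V) :
    (JW Z χ a).1 v = a.1 (Complex.I • v) := rfl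

variable {X : GF} {E : Type} [Field E] [NumberField E] {r : ℕ}

theorem tau_inj (X : GF) : Function.Injective X.τ := X.τ.injective

/-- labels are determined by the value at `ζ` -/
theorem lab_ext {m : ℕ} [IsCyclotomicExtension {m} ℚ E] {ζ : E} (hm : 0 < m)
    (hζ : IsPrimitiveRoot ζ m) {φ ψ : E →+* X.K} (h : φ ζ = ψ ζ) : φ = ψ := by
  have : NeZero m := ⟨hm.ne'⟩
  have h1 : Algebra.adjoin ℚ {ζ} = ⊤ := IsCyclotomicExtension.adjoin_primitive_root_eq_top hζ
  have h2 : φ.toRatAlgHom = ψ.toRatAlgHom := by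
    apply AlgHom.ext_of_adjoin_eq_top h1
    rintro x hx
    rw [Set.mem_singleton_iff] at hx
    rw [hx]
    exact h
  ext x
  exact DFunLike.congr_fun h2 x

variable (B : Blk X T E r)

theorem coord_self (k : (E →+* X.K) × Fin r) : B.b.coord k (B.b k) = 1 := by
  rw [Module.Basis.coord_apply, Module.Basis.repr_self, Finsupp.single_eq_same]

theorem coord_ne {k k' : (E →+* X.K) × Fin r} (h : k' ≠ k) : B.b.coord k (B.b k') = 0 := by
  rw [Module.Basis.coord_apply, Module.Basis.repr_self, Finsupp.single_eq_of_ne (Ne.symm h)]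

theorem coord_zero {m : ℕ} [IsCyclotomicExtension {m} ℚ E] {ζ : E} (hm : 0 < m)
    (hζ : IsPrimitiveRoot ζ m) {Z : Module.End ℂ T.V} (hB : ∀ v, B.ρ ζ v = Z v) {φ : E →+* X.K}
    {a : T.V →ₗ[ℝ] ℂ} (ha : a ∈ W Z (X.τ (φ ζ))) {ψ : E →+* X.K} (hψ : ψ ≠ φ) (i : Fin r) :
    B.b.coord (ψ, i) a = 0 := by
  classical
  have h1 : a ∘ₗ ((B.ρ ζ).restrictScalars ℝ) =
      ∑ k : (E →+* X.K) × Fin r, (B.b.coord k a * X.τ (k.1 ζ)) • B.b k := by
    ext v
    have h2 := LinearMap.congr_fun (B.b.sum_repr a) (B.ρ ζ v)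
    rw [LinearMap.sum_apply] at h2 ⊢
    show a (B.ρ ζ v) = _
    rw [← h2]
    refine Finset.sum_congr rfl fun k _ => ?_
    obtain ⟨ψ', i'⟩ := k
    rw [LinearMap.smul_apply, LinearMap.smul_apply, B.act ψ' i' ζ v, Module.Basis.coord_apply,
      smul_eq_mul, smul_eq_mul, mul_assoc]
  have h3 : a ∘ₗ ((B.ρ ζ).restrictScalars ℝ) = X.τ (φ ζ) • a := by
    ext v
    show a (B.ρ ζ v) = X.τ (φ ζ) * a v
    rw [hB v]
    exact ha v
  have h4 := congrArg (B.b.coord (ψ, i)) (h3.symm.trans h1)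
  rw [map_smul, map_sum] at h4
  rw [Finset.sum_eq_single (ψ, i)] at h4
  · rw [map_smul, coord_self] at h4
    simp only [smul_eq_mul, mul_one] at h4
    have h5 : (X.τ (φ ζ) - X.τ (ψ ζ)) * B.b.coord (ψ, i) a = 0 := by
      rw [sub_mul, h4]
      ring
    rcases mul_eq_zero.1 h5 with h6 | h6
    · exfalso
      apply hψ
      exact (lab_ext hm hζ (tau_inj X (sub_eq_zero.1 h6))).symm
    · exact h6
  · intro k _ hk
    rw [map_smul, coord_ne B hk, smul_zero]
  · intro h
    exact absurd (Finset.mem_univ _) h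

theorem b_mem {ζ : E} {Z : Module.End ℂ T.V} (hB : ∀ v, B.ρ ζ v = Z v) (φ : E →+* X.K)
    (i : Fin r) : B.b (φ, i) ∈ W Z (X.τ (φ ζ)) := by
  intro v
  rw [← hB v, B.act]

/-- the coordinates on the eigenspace -/
def eW {m : ℕ} [IsCyclotomicExtension {m} ℚ E] {ζ : E} (hm : 0 < m)
    (hζ : IsPrimitiveRoot ζ m) {Z : Module.End ℂ T.V} (hB : ∀ v, B.ρ ζ v = Z v)
    (φ : E →+* X.K) : W Z (X.τ (φ ζ)) ≃ₗ[ℂ] (Fin r → ℂ) where
  toFun a i := B.b.coord (φ, i) a.1
  map_add' a a' := by
    funext i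
    show B.b.coord (φ, i) (a.1 + a'.1) = _
    rw [map_add]
    rfl
  map_smul' c a := by
    funext i
    show B.b.coord (φ, i) (c • a.1) = _
    rw [map_smul]
    rfl
  invFun c := ∑ i, c i • (⟨B.b (φ, i), b_mem B hB φ i⟩ : W Z (X.τ (φ ζ)))
  left_inv := by
    intro a
    apply Subtype.ext
    apply B.b.ext_elem
    rintro ⟨ψ, j⟩
    by_cases hψ : ψ = φ
    · subst hψ
      rw [Submodule.coe_sum, map_sum, Finsupp.finsetSum_apply, Finset.sum_eq_single j]
      · rw [Submodule.coe_smul, map_smul, Finsupp.smul_apply, Module.Basis.repr_self,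
          Finsupp.single_eq_same, smul_eq_mul, mul_one]
        rfl
      · intro k _ hk
        rw [Submodule.coe_smul, map_smul, Finsupp.smul_apply, Module.Basis.repr_self,
          Finsupp.single_eq_of_ne (by
            intro h
            exact hk ((Prod.mk.inj h).2.symm)), smul_zero]
      · intro h
        exact absurd (Finset.mem_univ _) h
    · have h1 := coord_zero B hm hζ hB a.2 hψ j
      have h2 := coord_zero B hm hζ hB (∑ i, B.b.coord (φ, i) a.1 •
        (⟨B.b (φ, i), b_mem B hB φ i⟩ : W Z (X.τ (φ ζ)))).2 hψ j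
      rw [Module.Basis.coord_apply] at h1 h2
      rw [h1, h2]
  right_inv := by
    intro c
    funext j
    show B.b.coord (φ, j) (∑ i, c i • (⟨B.b (φ, i), b_mem B hB φ i⟩ : W Z (X.τ (φ ζ)))).1 = c j
    rw [Submodule.coe_sum, map_sum, Finset.sum_eq_single j]
    · rw [Submodule.coe_smul, map_smul, Module.Basis.coord_apply, Module.Basis.repr_self,
        Finsupp.single_eq_same, smul_eq_mul, mul_one]
    · intro k _ hk
      rw [Submodule.coe_smul, map_smul, Module.Basis.coord_apply, Module.Basis.repr_self,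
        Finsupp.single_eq_of_ne (by
          intro h
          exact hk ((Prod.mk.inj h).2.symm)), smul_zero]
    · intro h
      exact absurd (Finset.mem_univ _) h

theorem trace_eq_delta {m : ℕ} [IsCyclotomicExtension {m} ℚ E] {ζ : E} (hm : 0 < m)
    (hζ : IsPrimitiveRoot ζ m) {Z : Module.End ℂ T.V} (hB : ∀ v, B.ρ ζ v = Z v)
    (φ : E →+* X.K) :
    LinearMap.trace ℂ (W Z (X.τ (φ ζ))) (JW Z (X.τ (φ ζ))) = B.δ φ := by
  classical
  let bb := Module.Basis.ofEquivFun (eW B hm hζ hB φ)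
  rw [LinearMap.trace_eq_matrix_trace ℂ bb, Matrix.trace]
  unfold Blk.δ
  refine Finset.sum_congr rfl fun i _ => ?_
  rw [Matrix.diag_apply, LinearMap.toMatrix_apply]
  have h1 : bb i = ⟨B.b (φ, i), b_mem B hB φ i⟩ := by
    show Module.Basis.ofEquivFun (eW B hm hζ hB φ) i = _
    rw [Module.Basis.coe_ofEquivFun]
    apply (eW B hm hζ hB φ).symm_apply_eq.2
    funext j
    show (Pi.single i (1 : ℂ) : Fin r → ℂ) j = B.b.coord (φ, j) (B.b (φ, i))
    by_cases h : i = j
    · subst h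
      rw [Pi.single_eq_same, coord_self]
    · rw [Pi.single_eq_of_ne (Ne.symm h), coord_ne B (fun h' => h (Prod.mk.inj h').2)]
  rw [h1]
  rfl

end eig

/-- the trace of an operator with a basis of eigenvectors -/
theorem trace_diag {V : Type} [AddCommGroup V] [Module ℂ V] {ι : Type} [Fintype ι]
    [DecidableEq ι] (c : Module.Basis ι ℂ V) (f : V →ₗ[ℂ] V) (e : ι → ℂ)
    (h : ∀ k, f (c k) = e k • c k) : LinearMap.trace ℂ V f = ∑ k, e k := by
  rw [LinearMap.trace_eq_matrix_trace ℂ c, Matrix.trace]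
  refine Finset.sum_congr rfl fun k _ => ?_
  rw [Matrix.diag_apply, LinearMap.toMatrix_apply, h k, map_smul, Finsupp.smul_apply,
    Module.Basis.repr_self, Finsupp.single_eq_same, smul_eq_mul, mul_one]

end DeltaAux

open DeltaAux in
/-- **G4 (b).** -/
theorem delta_J {X : GF} {m r : ℕ} {s : Fin (r + 1) → ℂ} {b : Fin (r + 1) → ℕ}
    (hcov : IsCov m s b) {J : AV} (D : New J m s b) {E : Type} [Field E] [NumberField E]
    [IsCyclotomicExtension {m} ℚ E] {ζ : E} (hζ : IsPrimitiveRoot ζ m) (B : Blk X J E r)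
    (hB : ∀ v, B.ρ ζ v = D.Z v) (φ : E →+* X.K) :
    B.δ φ = Complex.I * (2 * ((Finset.univ.filter fun i : Fin r =>
      m * (i : ℕ) + ∑ j, (sg m ζ (X.τ.comp φ) * b j) % m < m * r).card : ℂ) - r) := by
  classical
  have hm3 := hcov.1
  have hm : 0 < m := by omega
  obtain ⟨hu, hχ⟩ := sg_spec hm hζ (X.τ.comp φ)
  have hup := sg_pos (by omega : 1 < m) hζ (X.τ.comp φ)
  have huc := sg_coprime hm hζ (X.τ.comp φ)
  generalize sg m ζ (X.τ.comp φ) = u at hu hχ hup huc ⊢
  have hχ' : ze m ^ u = X.τ (φ ζ) := hχ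
  have huc' : (m - u).Coprime m := coprime_sub hu.le huc
  obtain ⟨f, hf1, hf2⟩ := exists_forms D hcov hu huc
  obtain ⟨f', hf1', hf2'⟩ := exists_forms D hcov (show m - u < m by omega) huc'
  have hcz : conj (ze m ^ (m - u)) = X.τ (φ ζ) := by
    rw [map_pow, conj_ze, inv_pow, ← hχ']
    have h4 : ze m ^ u * ze m ^ (m - u) = 1 := by
      rw [← pow_add, Nat.add_sub_cancel' hu.le, (ze_prim hm).pow_eq_one]
    exact (eq_inv_of_mul_eq_one_left h4).symm
  let g : {i : Fin r // m * (i : ℕ) + ∑ j, (u * b j) % m < m * r} ⊕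
      {i : Fin r // m * (i : ℕ) + ∑ j, ((m - u) * b j) % m < m * r} → W D.Z (X.τ (φ ζ)) :=
    Sum.elim (fun i => ⟨(f i).restrictScalars ℝ, fun v => by
        show f i (D.Z v) = _ * f i v
        rw [hf1, hχ']⟩)
      (fun i => ⟨cjl ((f' i).restrictScalars ℝ), fun v => by
        show conj (f' i (D.Z v)) = _ * conj (f' i v)
        rw [hf1', map_mul, hcz]⟩)
  have hli : LinearIndependent ℂ g := by
    rw [Fintype.linearIndependent_iff]
    intro c hc
    have h0 : ∀ v, (∑ i, c (Sum.inl i) * f i v) + ∑ i, c (Sum.inr i) * conj (f' i v) = 0 := by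
      intro v
      have h1 := congrArg (fun a : W D.Z (X.τ (φ ζ)) => a.1 v) hc
      simp only [Fintype.sum_sum_type, Submodule.coe_add, Submodule.coe_sum, Submodule.coe_smul,
        LinearMap.add_apply, LinearMap.sum_apply, LinearMap.smul_apply, Submodule.coe_zero,
        LinearMap.zero_apply, smul_eq_mul] at h1
      exact h1
    have hA : ∀ v, (∑ i, c (Sum.inl i) * f i v) = 0 ∧ ∑ i, c (Sum.inr i) * conj (f' i v) = 0 := by
      intro v
      have h1 := h0 v
      have h2 := h0 (Complex.I • v)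
      have e1 : ∑ i, c (Sum.inl i) * f i (Complex.I • v) =
          Complex.I * ∑ i, c (Sum.inl i) * f i v := by
        rw [Finset.mul_sum]
        refine Finset.sum_congr rfl fun i _ => ?_
        rw [map_smul, smul_eq_mul]
        ring
      have e2 : ∑ i, c (Sum.inr i) * conj (f' i (Complex.I • v)) =
          -Complex.I * ∑ i, c (Sum.inr i) * conj (f' i v) := by
        rw [Finset.mul_sum]
        refine Finset.sum_congr rfl fun i _ => ?_
        rw [map_smul, smul_eq_mul, map_mul, Complex.conj_I]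
        ring
      rw [e1, e2] at h2
      generalize ∑ i, c (Sum.inl i) * f i v = A at *
      generalize ∑ i, c (Sum.inr i) * conj (f' i v) = A' at *
      have hI := Complex.I_ne_zero
      have h3 : Complex.I * (A - A') = 0 := by
        linear_combination h2
      have h4 := (mul_eq_zero.1 h3).resolve_left hI
      constructor
      · linear_combination (1 / 2) * h1 + (1 / 2) * h4
      · linear_combination (1 / 2) * h1 - (1 / 2) * h4
    rintro (i | i)
    · exact hf2 (fun i => c (Sum.inl i)) (fun v => (hA v).1) i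
    · have h5 := hf2' (fun i => conj (c (Sum.inr i))) (fun v => by
        have h6 := congrArg (starRingEnd ℂ) (hA v).2
        rw [map_sum, map_zero] at h6
        rw [← h6]
        refine Finset.sum_congr rfl fun i _ => ?_
        rw [map_mul, Complex.conj_conj]) i
      have h6 := congrArg (starRingEnd ℂ) h5
      rwa [Complex.conj_conj, map_zero] at h6
  have hfd : Module.Finite ℂ (W D.Z (X.τ (φ ζ))) := Module.Finite.equiv (eW B hm hζ hB φ).symm
  have hrk : Module.finrank ℂ (W D.Z (X.τ (φ ζ))) = r := by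
    rw [(eW B hm hζ hB φ).finrank_eq, Module.finrank_fintype_fun_eq_card, Fintype.card_fin]
  have hc1 : Fintype.card {i : Fin r // m * (i : ℕ) + ∑ j, (u * b j) % m < m * r} = pu m b u := by
    rw [Fintype.card_subtype]
    rfl
  have hc2 : Fintype.card {i : Fin r // m * (i : ℕ) + ∑ j, ((m - u) * b j) % m < m * r} =
      pu m b (m - u) := by
    rw [Fintype.card_subtype]
    rfl
  have hpu := pu_add hm hcov.2.2.1 hcov.2.2.2.1 hu.le huc huc'
  have hcard : Fintype.card ({i : Fin r // m * (i : ℕ) + ∑ j, (u * b j) % m < m * r} ⊕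
      {i : Fin r // m * (i : ℕ) + ∑ j, ((m - u) * b j) % m < m * r}) =
      Module.finrank ℂ (W D.Z (X.τ (φ ζ))) := by
    rw [Fintype.card_sum, hc1, hc2, hrk, hpu]
  have hspan := hli.span_eq_top_of_card_eq_finrank' hcard
  let c := Module.Basis.mk hli hspan.ge
  have hc : ∀ k, JW D.Z (X.τ (φ ζ)) (c k) =
      (Sum.elim (fun _ => Complex.I) (fun _ => -Complex.I) k : ℂ) • c k := by
    intro k
    have h1 : c k = g k := Module.Basis.mk_apply hli hspan.ge k
    rw [h1]
    apply Subtype.ext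
    ext v
    rcases k with i | i
    · show f i (Complex.I • v) = Complex.I * f i v
      rw [map_smul, smul_eq_mul]
    · show conj (f' i (Complex.I • v)) = -Complex.I * conj (f' i v)
      rw [map_smul, smul_eq_mul, map_mul, Complex.conj_I]
  have htr := trace_diag c (JW D.Z (X.τ (φ ζ))) _ hc
  rw [trace_eq_delta B hm hζ hB φ] at htr
  rw [htr, Fintype.sum_sum_type]
  simp only [Sum.elim_inl, Sum.elim_inr, Finset.sum_const, Finset.card_univ, nsmul_eq_mul]
  rw [hc1, hc2]
  have h7 : ((pu m b (m - u) : ℕ) : ℂ) = r - (pu m b u : ℕ) := by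
    have h8 : ((pu m b u : ℕ) : ℂ) + (pu m b (m - u) : ℕ) = r := by exact_mod_cast hpu
    linear_combination h8
  rw [h7]
  show _ = Complex.I * (2 * ((pu m b u : ℕ) : ℂ) - r)
  ring

end HC.SE
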