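import Pool.Agent.Lib.SE.S5.Blk

/-!
# PROJECT SE, part S5: multiplication by a number field `E` on `V / L` (helper59)

`exists_blk`: a ring homomorphism `ρ : E → End_ℂ V`, `E = ℚ(θ)` of degree `n`, `ρ θ` maps `L` to
itself and `2 dim V = r n`: `T = V / L` has multiplication by `E` of rank `r` (structure `Blk`).
-/

set_option autoImplicit false

noncomputable section

namespace SE
namespace S5

open HC Module

section

variable {T : AV} {E : Type} [Field E] [NumberField E] (pb : PowerBasis ℚ E)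
  (ρ : E →+* Module.End ℂ T.V)

/-- Elements of `E` are rational combinations of the powers of the generator. -/
theorem pow_sum (x : E) : ∃ q : Fin pb.dim → ℚ, x = ∑ k, (q k : E) * pb.gen ^ (k : ℕ) := by
  refine ⟨fun k => pb.basis.repr x k, ?_⟩
  conv_lhs => rw [← pb.basis.sum_repr x]
  refine Finset.sum_congr rfl fun k _ => ?_
  rw [pb.basis_eq_pow, Rat.smul_def]

theorem rho_rat (q : ℚ) (v : T.V) : ρ (q : E) v = ((q : ℝ)) • v := by
  have h1 : ((q.den : ℕ) : ℝ) ≠ 0 := by exact_mod_cast q.den_ne_zero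
  have h2 : (q.den : ℕ) • ρ (q : E) v = (q.num : ℤ) • v := by
    have h3 : ((q.den : E)) * (q : E) = (q.num : E) := by
      exact_mod_cast congrArg (Rat.cast : ℚ → E) (Rat.den_mul_eq_num q)
    have h4 : ρ ((q.den : E) * (q : E)) v = (q.den : ℕ) • ρ (q : E) v := by
      rw [map_mul, map_natCast]
      rfl
    rw [← h4, h3, map_intCast]
    rfl
  have h5 : ((q.den : ℕ) : ℝ) • ρ (q : E) v = ((q.den : ℕ) : ℝ) • ((q : ℝ) • v) := by
    rw [Nat.cast_smul_eq_nsmul, h2, smul_smul]
    have h6 : ((q.den : ℕ) : ℝ) * (q : ℝ) = ((q.num : ℤ) : ℝ) := by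
      exact_mod_cast congrArg (Rat.cast : ℚ → ℝ) (Rat.den_mul_eq_num q)
    rw [h6, Int.cast_smul_eq_zsmul]
  exact smul_right_injective _ h1 h5

/-- The vectors `θ^k e_j`. -/
def wv {d : ℕ} (e : Fin d → T.V) (s : Fin pb.dim × Fin d) : T.V := ρ (pb.gen ^ (s.1 : ℕ)) (e s.2)

theorem rho_e {d : ℕ} (e : Fin d → T.V) {x : E} {q : Fin pb.dim → ℚ}
    (hx : x = ∑ k, (q k : E) * pb.gen ^ (k : ℕ)) (j : Fin d) :
    ρ x (e j) = ∑ k, ((q k : ℝ)) • wv pb ρ e (k, j) := by
  rw [hx, map_sum, LinearMap.sum_apply]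
  refine Finset.sum_congr rfl fun k _ => ?_
  rw [map_mul]
  exact rho_rat ρ (q k) _

theorem wv_mem (hL : ∀ v ∈ T.L, ρ pb.gen v ∈ T.L) {d : ℕ} (e : Fin d → T.V)
    (he : ∀ j, e j ∈ T.L) (s : Fin pb.dim × Fin d) : wv pb ρ e s ∈ T.L := by
  have h1 : ∀ k : ℕ, ∀ v ∈ T.L, ρ (pb.gen ^ k) v ∈ T.L := by
    intro k
    induction k with
    | zero =>
      intro v hv
      rw [pow_zero, map_one]
      exact hv
    | succ k ih =>
      intro v hv
      rw [pow_succ, map_mul]
      exact ih _ (hL v hv)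
  exact h1 _ _ (he s.2)

omit [NumberField E] in
/-- An `E`-basis of `H_1(T, ℚ)` in the lattice. -/
theorem exists_e : ∃ (d : ℕ) (e : Fin d → T.V), (∀ j, e j ∈ T.L) ∧
    (∀ v ∈ T.L, ∃ y : Fin d → E, v = ∑ j, ρ (y j) (e j)) ∧
    ∀ y : Fin d → E, ∑ j, ρ (y j) (e j) = 0 → y = 0 := by
  classical
  let iM : Module E T.V := Module.compHom T.V ρ
  obtain ⟨b, hb, hsp, hli⟩ := exists_linearIndependent E
    (Set.range fun l : Fund.Ix T => ((Fund.bZ T l : T.L) : T.V))
  have hfin : b.Finite := (Set.finite_range _).subset hb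
  let iF : Fintype b := hfin.fintype
  let en := Fintype.equivFin b
  refine ⟨Fintype.card b, fun j => ((en.symm j : b) : T.V), ?_, ?_, ?_⟩
  · intro j
    obtain ⟨l, hl⟩ := hb (en.symm j).2
    show ((en.symm j : b) : T.V) ∈ T.L
    rw [← hl]
    exact (Fund.bZ T l).2
  · intro v hv
    have h1 : v ∈ Submodule.span E b := by
      rw [hsp]
      have h7 : (⟨v, hv⟩ : T.L) ∈ Submodule.span ℤ (Set.range (Fund.bZ T)) := by
        rw [(Fund.bZ T).span_eq]
        exact Submodule.mem_top
      have h8 : ∀ w : T.L, w ∈ Submodule.span ℤ (Set.range (Fund.bZ T)) → (w : T.V) ∈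
          Submodule.span E (Set.range fun l : Fund.Ix T => ((Fund.bZ T l : T.L) : T.V)) := by
        intro w hw
        induction hw using Submodule.span_induction with
        | mem w hw =>
          obtain ⟨l, rfl⟩ := hw
          exact Submodule.subset_span ⟨l, rfl⟩
        | zero => exact Submodule.zero_mem _
        | add w w' _ _ h h' => exact Submodule.add_mem _ h h'
        | smul n w _ h =>
          have h9 : ((n • w : T.L) : T.V) = (n : E) • (w : T.V) := by
            show n • (w : T.V) = ρ (n : E) (w : T.V)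
            rw [map_intCast]
            rfl
          rw [h9]
          exact Submodule.smul_mem _ _ h
      exact h8 _ h7
    have h2 : Submodule.span E b =
        Submodule.span E (Set.range fun j => ((en.symm j : b) : T.V)) := by
      congr 1
      ext x
      constructor
      · intro hx
        exact ⟨en ⟨x, hx⟩, by simp⟩
      · rintro ⟨j, rfl⟩
        exact (en.symm j).2
    rw [h2, Submodule.mem_span_range_iff_exists_fun] at h1
    obtain ⟨y, hy⟩ := h1
    exact ⟨y, hy.symm⟩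
  · intro y hy
    have h3 : LinearIndependent E fun j => ((en.symm j : b) : T.V) :=
      hli.comp _ en.symm.injective
    rw [Fintype.linearIndependent_iff] at h3
    funext j
    exact h3 y hy j

/-- The vectors `θ^k e_j` are a real basis of `V`. -/
theorem exists_W (hL : ∀ v ∈ T.L, ρ pb.gen v ∈ T.L) {r : ℕ}
    (hdim : 2 * finrank ℂ T.V = r * pb.dim) :
    ∃ (e : Fin r → T.V) (W : Basis (Fin pb.dim × Fin r) ℝ T.V), (∀ j, e j ∈ T.L) ∧
      (∀ v ∈ T.L, ∃ y : Fin r → E, v = ∑ j, ρ (y j) (e j)) ∧ ∀ s, W s = wv pb ρ e s := by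
  classical
  obtain ⟨d, e, he, hsp, hind⟩ := exists_e ρ
  have hpos : 0 < pb.dim := pb.dim_pos
  have hL1 : ∀ v ∈ T.L, v ∈ Submodule.span ℝ (Set.range (wv pb ρ e)) := by
    intro v hv
    obtain ⟨y, hy⟩ := hsp v hv
    rw [hy]
    refine Submodule.sum_mem _ fun j _ => ?_
    obtain ⟨q, hq⟩ := pow_sum pb (y j)
    rw [rho_e pb ρ e hq j]
    exact Submodule.sum_mem _ fun k _ => Submodule.smul_mem _ _ (Submodule.subset_span ⟨(k, j), rfl⟩)
  have hspan : ⊤ ≤ Submodule.span ℝ (Set.range (wv pb ρ e)) := by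
    rw [← IsZLattice.span_top (K := ℝ) (L := T.L), Submodule.span_le]
    exact hL1
  have hfr : finrank ℝ T.V = r * pb.dim := by
    rw [finrank_real_of_complex, hdim]
  have h1 : finrank ℝ T.V ≤ pb.dim * d := by
    have h2 := finrank_range_le_card (R := ℝ) (wv pb ρ e)
    rw [Set.finrank, top_le_iff.1 hspan, finrank_top, Fintype.card_prod, Fintype.card_fin,
      Fintype.card_fin] at h2
    exact h2
  have h3 : pb.dim * d ≤ finrank ℝ T.V := by
    have h4 : LinearIndependent ℤ fun s => (⟨wv pb ρ e s, wv_mem pb ρ hL e he s⟩ : T.L) := by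
      rw [Fintype.linearIndependent_iff]
      intro n hn
      have h5 : ∑ s, n s • wv pb ρ e s = 0 := by
        have h6 := congrArg (fun w : T.L => (w : T.V)) hn
        simpa using h6
      have h7 : ∑ j, ρ (∑ k, (n (k, j) : E) * pb.gen ^ (k : ℕ)) (e j) = 0 := by
        rw [← h5, Fintype.sum_prod_type, Finset.sum_comm]
        refine Finset.sum_congr rfl fun j _ => ?_
        rw [map_sum, LinearMap.sum_apply]
        refine Finset.sum_congr rfl fun k _ => ?_
        rw [map_mul, map_intCast]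
        rfl
      have h8 := hind _ h7
      rintro ⟨k, j⟩
      have h9 : ∑ k, (n (k, j) : ℚ) • pb.basis k = 0 := by
        have h10 := congrFun h8 j
        rw [Pi.zero_apply] at h10
        rw [← h10]
        refine Finset.sum_congr rfl fun k _ => ?_
        rw [pb.basis_eq_pow, Rat.smul_def, Rat.cast_intCast]
      have h11 := (Fintype.linearIndependent_iff.1 pb.basis.linearIndependent) _ h9 k
      exact_mod_cast h11
    have h12 := h4.fintype_card_le_finrank
    rw [Fintype.card_prod, Fintype.card_fin, Fintype.card_fin, ZLattice.rank ℝ T.L] at h12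
    exact h12
  have hd : d = r := by
    have h13 : pb.dim * d = pb.dim * r := by
      rw [mul_comm pb.dim r, ← hfr]
      exact le_antisymm h3 h1
    exact Nat.eq_of_mul_eq_mul_left hpos h13
  subst hd
  refine ⟨e, basisOfTopLeSpanOfCardEqFinrank (wv pb ρ e) hspan ?_, he, hsp, fun s => ?_⟩
  · rw [Fintype.card_prod, Fintype.card_fin, Fintype.card_fin]
    exact le_antisymm h3 h1
  · rw [coe_basisOfTopLeSpanOfCardEqFinrank]

variable {X : GF} {r : ℕ} (W : Basis (Fin pb.dim × Fin r) ℝ T.V)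

open Classical in
/-- The coordinates. -/
def b0 (s : (E →+* X.K) × Fin r) : T.V →ₗ[ℝ] ℂ :=
  W.constr ℝ fun w => if w.2 = s.2 then X.τ (s.1 (pb.gen ^ (w.1 : ℕ))) else 0

open Classical in
theorem b0_rho {e : Fin r → T.V} (hW : ∀ s, W s = wv pb ρ e s) (s : (E →+* X.K) × Fin r) (x : E)
    (j : Fin r) : b0 pb W s (ρ x (e j)) = if j = s.2 then X.τ (s.1 x) else 0 := by
  obtain ⟨q, hq⟩ := pow_sum pb x
  have h1 : ∀ k : Fin pb.dim, b0 pb W s (wv pb ρ e (k, j)) =
      if j = s.2 then X.τ (s.1 (pb.gen ^ (k : ℕ))) else 0 := by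
    intro k
    rw [← hW, b0, Basis.constr_basis]
  rw [rho_e pb ρ e hq j, map_sum]
  split_ifs with h
  · rw [hq, map_sum, map_sum]
    refine Finset.sum_congr rfl fun k _ => ?_
    rw [map_smul, h1, if_pos h, map_mul, map_mul, map_ratCast, map_ratCast, Complex.real_smul]
    push_cast
    rfl
  · refine Finset.sum_eq_zero fun k _ => ?_
    rw [map_smul, h1, if_neg h, smul_zero]

/-- The number of labels. -/
theorem card_lab (φ₀ : E →+* X.K) : Fintype.card (E →+* X.K) = pb.dim := by
  have h1 : Function.Bijective fun φ : E →+* X.K => X.τ.comp φ := by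
    constructor
    · intro φ φ' h
      exact RingHom.ext fun x => X.τ.injective (RingHom.congr_fun h x)
    · intro ψ
      obtain ⟨φ, hφ⟩ := lift_emb φ₀ ψ
      exact ⟨φ, hφ⟩
  rw [Fintype.card_of_bijective h1, NumberField.Embeddings.card, pb.finrank]

theorem finrank_forms (T : AV) : finrank ℂ (T.V →ₗ[ℝ] ℂ) = finrank ℝ T.V := by
  rw [finrank_eq_card_basis (bW T), finrank_eq_card_basis (Fund.bR T)]

/-- The coordinates are linearly independent. -/
theorem b0_li {e : Fin r → T.V} (hW : ∀ s, W s = wv pb ρ e s) :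
    LinearIndependent ℂ fun s : (E →+* X.K) × Fin r => b0 pb W s := by
  classical
  rw [Fintype.linearIndependent_iff]
  intro c hc
  rintro ⟨φ, i⟩
  have h1 : ∀ x : E, ∑ φ : E →+* X.K, c (φ, i) * X.τ (φ x) = 0 := by
    intro x
    have h2 := LinearMap.congr_fun hc (ρ x (e i))
    rw [LinearMap.sum_apply, LinearMap.zero_apply, Fintype.sum_prod_type] at h2
    rw [← h2]
    refine Finset.sum_congr rfl fun φ _ => ?_
    rw [Finset.sum_eq_single i]
    · rw [LinearMap.smul_apply, b0_rho pb ρ W hW, if_pos rfl, smul_eq_mul]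
    · intro j _ hj
      rw [LinearMap.smul_apply, b0_rho pb ρ W hW, if_neg (fun h => hj h.symm), smul_zero]
    · intro h
      exact absurd (Finset.mem_univ i) h
  have hli := linearIndependent_monoidHom E ℂ
  have hinj : Function.Injective (fun t : E →+* X.K => ((X.τ.comp t : E →+* ℂ) : E →* ℂ)) := by
    intro s t hst
    exact RingHom.ext fun x => X.τ.injective (DFunLike.congr_fun hst x)
  have hz := Fintype.linearIndependent_iff.mp (hli.comp _ hinj) (fun φ => c (φ, i)) (by
    funext x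
    rw [Finset.sum_apply]
    exact h1 x)
  exact hz φ

/-- **Multiplication by a number field.** -/
theorem exists_blk (hL : ∀ v ∈ T.L, ρ pb.gen v ∈ T.L)
    (hdim : 2 * finrank ℂ T.V = r * pb.dim) (φ₀ : E →+* X.K) :
    ∃ B : Blk X T E r, B.ρ = ρ := by
  classical
  obtain ⟨e, W, he, hsp, hW⟩ := exists_W pb ρ hL hdim
  have hcard : Fintype.card ((E →+* X.K) × Fin r) = finrank ℂ (T.V →ₗ[ℝ] ℂ) := by
    rw [Fintype.card_prod, card_lab pb φ₀, Fintype.card_fin, finrank_forms,
      finrank_real_of_complex, hdim, mul_comm]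
  have : FiniteDimensional ℂ (T.V →ₗ[ℝ] ℂ) := Module.Finite.of_basis (bW T)
  let bb : Basis ((E →+* X.K) × Fin r) ℂ (T.V →ₗ[ℝ] ℂ) :=
    basisOfLinearIndependentOfCardEqFinrank' (fun s => b0 pb W s) (b0_li pb ρ W hW) hcard
  have hbb : ∀ s, bb s = b0 pb W s := by
    intro s
    show basisOfLinearIndependentOfCardEqFinrank' _ _ _ s = _
    rw [coe_basisOfLinearIndependentOfCardEqFinrank']
  refine ⟨⟨bb, ρ, ?_, ?_, ?_⟩, rfl⟩
  · intro v hv
    obtain ⟨y, hy⟩ := hsp v hv
    refine ⟨y, fun φ i => ?_⟩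
    rw [hbb, hy, map_sum, Finset.sum_eq_single i]
    · rw [b0_rho pb ρ W hW, if_pos rfl]
    · intro j _ hj
      rw [b0_rho pb ρ W hW, if_neg hj]
    · intro h
      exact absurd (Finset.mem_univ i) h
  · intro y
    choose q hq using fun j => pow_sum pb (y j)
    have h1 : ∀ s : Fin pb.dim × Fin r, ∃ z : ℤ,
        ((∏ s : Fin pb.dim × Fin r, (q s.2 s.1).den : ℕ) : ℚ) * q s.2 s.1 = z := by
      intro s
      refine ⟨((∏ t ∈ Finset.univ.erase s, (q t.2 t.1).den : ℕ) : ℤ) * (q s.2 s.1).num, ?_⟩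
      rw [← Finset.prod_erase_mul _ _ (Finset.mem_univ s)]
      push_cast
      rw [mul_assoc, Rat.den_mul_eq_num]
    choose z hz using h1
    refine ⟨∏ s : Fin pb.dim × Fin r, (q s.2 s.1).den,
      Finset.prod_ne_zero_iff.2 fun s _ => (q s.2 s.1).den_ne_zero,
      ∑ s : Fin pb.dim × Fin r, z s • wv pb ρ e s,
      T.L.sum_mem fun s _ => T.L.smul_mem _ (wv_mem pb ρ hL e he s), fun φ i => ?_⟩
    rw [hbb, map_sum, Fintype.sum_prod_type]
    have h2 : ∀ (k : Fin pb.dim) (j : Fin r), b0 pb W (φ, i) (z (k, j) • wv pb ρ e (k, j)) =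
        if j = i then (z (k, j) : ℂ) * X.τ (φ (pb.gen ^ (k : ℕ))) else 0 := by
      intro k j
      have h3 : b0 pb W (φ, i) (wv pb ρ e (k, j)) =
          if j = i then X.τ (φ (pb.gen ^ (k : ℕ))) else 0 := b0_rho pb ρ W hW (φ, i) _ j
      rw [map_zsmul, h3, zsmul_eq_mul]
      split_ifs
      · rfl
      · rw [mul_zero]
    simp only [h2, Finset.sum_ite_eq', Finset.mem_univ, if_true]
    conv_rhs => rw [hq i, map_sum, map_sum, Finset.mul_sum]
    refine Finset.sum_congr rfl fun k _ => ?_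
    rw [map_mul, map_mul, map_ratCast, map_ratCast, ← mul_assoc]
    congr 1
    have h4 := congrArg (Rat.cast : ℚ → ℂ) (hz (k, i))
    push_cast at h4 ⊢
    exact h4.symm
  · intro φ i x v
    rw [hbb]
    have h1 : (b0 pb W (φ, i)) ∘ₗ (ρ x).restrictScalars ℝ = X.τ (φ x) • b0 pb W (φ, i) := by
      refine W.ext fun s => ?_
      rw [LinearMap.comp_apply, LinearMap.smul_apply, hW]
      show b0 pb W (φ, i) (ρ x (ρ (pb.gen ^ (s.1 : ℕ)) (e s.2))) =
        X.τ (φ x) • b0 pb W (φ, i) (ρ (pb.gen ^ (s.1 : ℕ)) (e s.2))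
      have h2 : ρ x (ρ (pb.gen ^ (s.1 : ℕ)) (e s.2)) = ρ (x * pb.gen ^ (s.1 : ℕ)) (e s.2) := by
        rw [map_mul]
        rfl
      rw [h2, b0_rho pb ρ W hW, b0_rho pb ρ W hW]
      split_ifs
      · rw [map_mul, map_mul, smul_eq_mul]
      · rw [smul_zero]
    exact LinearMap.congr_fun h1 v

end

end S5
end SE
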