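import Pool.Agent.Lib.SE.Defs
import Pool.Agent.Lib.SE.S5.Mul

/-!
# PROJECT SE, part S5: new Jacobians have multiplication by the cyclotomic field (helper59)
-/

set_option autoImplicit false

noncomputable section

namespace SE
namespace S5

open HC Module Polynomial

section

variable {m : ℕ} {E : Type} [Field E] [NumberField E] [IsCyclotomicExtension {m} ℚ E] {ζ : E}

/-- The ring homomorphism `E → End V`, `ζ ↦ Z`. -/
theorem exists_rho [NeZero m] (hζ : IsPrimitiveRoot ζ m) {V : Type} [AddCommGroup V] [Module ℂ V]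
    (Z : Module.End ℂ V) (hZ : aeval Z (cyclotomic m ℤ) = 0) :
    ∃ ρ : E →+* Module.End ℂ V, ρ ζ = Z := by
  let iA : Algebra ℚ (Module.End ℂ V) := Algebra.compHom (Module.End ℂ V) (algebraMap ℚ ℂ)
  have h1 : aeval Z (minpoly ℚ (hζ.powerBasis ℚ).gen) = 0 := by
    rw [hζ.powerBasis_gen ℚ, ← cyclotomic_eq_minpoly_rat hζ (NeZero.pos m),
      ← map_cyclotomic_int m ℚ]
    have h2 : (cyclotomic m ℤ).map (Int.castRingHom ℚ) = (cyclotomic m ℤ).map (algebraMap ℤ ℚ) := rfl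
    rw [h2, aeval_map_algebraMap]
    exact hZ
  refine ⟨((hζ.powerBasis ℚ).lift Z h1).toRingHom, ?_⟩
  have h3 := (hζ.powerBasis ℚ).lift_gen Z h1
  rw [hζ.powerBasis_gen ℚ] at h3
  exact h3

/-- The complex conjugation of `E`. -/
theorem exists_inv (hm : 2 < m) (X : GF) : ∃ inv : E ≃+* E,
    (∀ (φ : E →+* X.K) (x : E), φ (inv x) = X.c (φ x)) ∧ (∃ x, inv x ≠ x) ∧
      ∀ (φ : E →+* ℂ) (x : E), φ (inv x) = (starRingEnd ℂ) (φ x) := by
  have : NumberField.IsCMField E :=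
    IsCyclotomicExtension.Rat.isCMField E (S := {m}) ⟨m, rfl, hm⟩
  refine ⟨(NumberField.IsCMField.complexConj E).toRingEquiv, ?_, ?_, ?_⟩
  · intro φ x
    apply X.τ.injective
    rw [X.hc]
    exact NumberField.IsCMField.complexEmbedding_complexConj E (X.τ.comp φ) x
  · by_contra h
    push Not at h
    exact NumberField.IsCMField.complexConj_ne_one E (AlgEquiv.ext h)
  · intro φ x
    exact NumberField.IsCMField.complexEmbedding_complexConj E φ x

omit [IsCyclotomicExtension {m} ℚ E] in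
theorem inv_zeta (hm : m ≠ 0) (hζ : IsPrimitiveRoot ζ m) (inv : E ≃+* E)
    (hinv : ∀ (φ : E →+* ℂ) (x : E), φ (inv x) = (starRingEnd ℂ) (φ x)) : ζ * inv ζ = 1 := by
  obtain ⟨φ⟩ : Nonempty (E →+* ℂ) := inferInstance
  apply φ.injective
  have h1 : ‖φ ζ‖ = 1 := by
    refine Complex.norm_eq_one_of_pow_eq_one ?_ hm
    rw [← map_pow, hζ.pow_eq_one, map_one]
  rw [map_mul, hinv, Complex.mul_conj, Complex.normSq_eq_norm_sq, h1, map_one]
  norm_num

omit [IsCyclotomicExtension {m} ℚ E] in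
/-- The Riemann form is compatible with `E`. -/
theorem adj_of (pb : PowerBasis ℚ E) (hpb : pb.gen = ζ) {T : AV} (ρ : E →+* Module.End ℂ T.V)
    (inv : E ≃+* E) (h1 : ζ * inv ζ = 1) (R : T.V →ₗ[ℝ] T.V →ₗ[ℝ] ℝ)
    (hR : ∀ u v, R (ρ ζ u) (ρ ζ v) = R u v) (x : E) (u v : T.V) :
    R (ρ x u) v = R u (ρ (inv x) v) := by
  have h2 : ∀ u v, R (ρ ζ u) v = R u (ρ (inv ζ) v) := by
    intro u v
    rw [← hR u (ρ (inv ζ) v)]
    congr 1
    have h3 : ρ (ζ * inv ζ) v = v := by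
      rw [h1, map_one]
      rfl
    conv_lhs => rw [← h3, map_mul]
    rfl
  have h4 : ∀ (k : ℕ) (u v : T.V), R (ρ (ζ ^ k) u) v = R u (ρ (inv (ζ ^ k)) v) := by
    intro k
    induction k with
    | zero =>
      intro u v
      rw [pow_zero, map_one, map_one, map_one]
      rfl
    | succ k ih =>
      intro u v
      have h5 : ρ (ζ ^ (k + 1)) u = ρ (ζ ^ k) (ρ ζ u) := by
        rw [pow_succ, map_mul]
        rfl
      have h6 : ρ (inv (ζ ^ (k + 1))) v = ρ (inv ζ) (ρ (inv (ζ ^ k)) v) := by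
        rw [pow_succ, map_mul inv, mul_comm, map_mul ρ]
        rfl
      rw [h5, ih, h2, h6]
  obtain ⟨q, hq⟩ := pow_sum pb x
  have h7 : ∀ (q : ℚ) (y : E) (w : T.V), ρ ((q : E) * y) w = (q : ℝ) • ρ y w := by
    intro q y w
    rw [map_mul]
    exact rho_rat ρ q _
  rw [hq, map_sum ρ, map_sum inv, map_sum ρ, LinearMap.sum_apply, LinearMap.sum_apply, map_sum,
    map_sum, LinearMap.sum_apply]
  refine Finset.sum_congr rfl fun k _ => ?_
  rw [h7, map_mul inv, map_ratCast, h7, map_smul, LinearMap.smul_apply, map_smul, hpb, h4]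

/-- **New Jacobians have multiplication by the cyclotomic field.** -/
theorem new_blk (X : GF) {r : ℕ} {s : Fin (r + 1) → ℂ} {b : Fin (r + 1) → ℕ}
    (hcov : HC.SE.IsCov m s b) (hX : ∃ z : X.K, IsPrimitiveRoot z m) (hζ : IsPrimitiveRoot ζ m)
    {J : AV} (D : HC.SE.New J m s b) (R : J.V →ₗ[ℝ] J.V →ₗ[ℝ] ℝ)
    (hR : HC.SE.IsPol J D.Z R) :
    ∃ (B : Blk X J E r) (inv : E ≃+* E), (∀ v, B.ρ ζ v = D.Z v) ∧
      (∀ (φ : E →+* X.K) (x : E), φ (inv x) = X.c (φ x)) ∧ (∃ x, inv x ≠ x) ∧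
      ∀ x u v, R (B.ρ x u) v = R u (B.ρ (inv x) v) := by
  have hm : 3 ≤ m := hcov.1
  have : NeZero m := ⟨by omega⟩
  obtain ⟨z, hz⟩ := hX
  -- a label
  have hirr : Irreducible (cyclotomic m ℚ) := cyclotomic.irreducible_rat (by omega)
  obtain ⟨φ₀⟩ : Nonempty (E →+* X.K) := by
    have h1 : aeval z (minpoly ℚ (hζ.powerBasis ℚ).gen) = 0 := by
      rw [hζ.powerBasis_gen ℚ, ← cyclotomic_eq_minpoly_rat hζ (NeZero.pos m),
        cyclotomic_eq_minpoly_rat hz (NeZero.pos m)]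
      exact minpoly.aeval ℚ z
    exact ⟨((hζ.powerBasis ℚ).lift z h1).toRingHom⟩
  obtain ⟨ρ, hρ⟩ := exists_rho hζ D.Z D.cyc
  have hdim : (hζ.powerBasis ℚ).dim = m.totient := by
    rw [← (hζ.powerBasis ℚ).finrank, IsCyclotomicExtension.finrank E hirr]
  obtain ⟨B, hB⟩ := exists_blk (hζ.powerBasis ℚ) (r := r) ρ
    (fun v hv => by
      rw [hζ.powerBasis_gen ℚ, hρ]
      exact D.lat v hv) (by rw [hdim, D.dim]) φ₀
  obtain ⟨inv, h1, h2, h3⟩ := exists_inv (E := E) (m := m) (by omega) X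
  refine ⟨B, inv, fun v => by rw [hB, hρ], h1, h2, fun x u v => ?_⟩
  refine adj_of (ζ := ζ) (hζ.powerBasis ℚ) (hζ.powerBasis_gen ℚ) B.ρ inv
    (inv_zeta (by omega) hζ inv h3) R (fun u v => ?_) x u v
  rw [hB, hρ]
  exact hR.2.2.2.2 u v

end

end S5
end SE
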