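import Pool.Agent.Lib.SE.S5.CmC
import Pool.Agent.Lib.SE.S5.New
import Pool.Agent.Lib.SE.S5.Delta
import Pool.Agent.Lib.SE.W.Pex
import Pool.Agent.Lib.HC.L.L0

/-!
# PROJECT SE, G4 (helper12): `S_DA` from `S_cyc`

`da_main : S_cyc → S_DA`: a new Jacobian is a `Tp` with determinant classes in `Alg2`.
-/

set_option autoImplicit false

open scoped ComplexConjugate
open NumberField

noncomputable section

namespace SE
namespace S5

open HC HC.SE SE.S4

/-- The closure properties of `Alg2`. -/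
theorem clAlg2 : Cl @Alg2 where
  base := Alg2.base
  push := fun φ hφ _ hc => Alg2.push φ hφ hc
  pont := fun hc hd => Alg2.pont hc hd
  cap := fun p q h _ hc => Alg2.cap p q h hc
  add := fun hc hd => Alg2.add hc hd
  smul := fun x _ hc => Alg2.smul x hc

/-- Change of the degree. -/
theorem recast {T : AV} {n n' : ℕ} (h : n = n') (c : Hlg T n) (hc : Alg2 T n c) :
    ∃ c' : Hlg T n', Alg2 T n' c' ∧ ∀ a : Fin n → (T.V →ₗ[ℝ] ℂ),
      c' (fun j => a (Fin.cast h.symm j)) = c a := by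
  subst h
  exact ⟨c, hc, fun a => rfl⟩

/-- Eigenforms of `Z` are in the span of the block coordinates. -/
theorem eig_span {X : GF} {T : AV} {E : Type} [Field E] [NumberField E] {r : ℕ} (B : Blk X T E r)
    {ζ : E} (hζ : ∀ φ ψ : E →+* X.K, φ ζ = ψ ζ → φ = ψ) (φ : E →+* X.K) (a : T.V →ₗ[ℝ] ℂ)
    (ha : ∀ v, a (B.ρ ζ v) = X.τ (φ ζ) * a v) :
    a ∈ Submodule.span ℂ (Set.range fun i => B.b (φ, i)) := by
  classical
  have h1 : ∑ k, (B.b.repr a k) • B.b k = a := B.b.sum_repr a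
  have h2 : ∑ k, ((X.τ (k.1 ζ) - X.τ (φ ζ)) * B.b.repr a k) • B.b k = 0 := by
    refine LinearMap.ext fun v => ?_
    have h3 : a (B.ρ ζ v) = ∑ k, B.b.repr a k * (X.τ (k.1 ζ) * B.b k v) := by
      conv_lhs => rw [← h1, LinearMap.sum_apply]
      refine Finset.sum_congr rfl fun k _ => ?_
      rw [LinearMap.smul_apply, smul_eq_mul, ← Prod.mk.eta (p := k), B.act]
    have h4 : a v = ∑ k, B.b.repr a k * B.b k v := by
      conv_lhs => rw [← h1, LinearMap.sum_apply]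
      rfl
    rw [ha, h4, Finset.mul_sum, ← sub_eq_zero, ← Finset.sum_sub_distrib] at h3
    rw [LinearMap.sum_apply, LinearMap.zero_apply, ← neg_eq_zero, ← h3, ← Finset.sum_neg_distrib]
    refine Finset.sum_congr rfl fun k _ => ?_
    rw [LinearMap.smul_apply, smul_eq_mul]
    ring
  have h5 := Fintype.linearIndependent_iff.1 B.b.linearIndependent _ h2
  rw [← h1]
  refine Submodule.sum_mem _ fun k _ => ?_
  by_cases hk : k.1 = φ
  · refine Submodule.smul_mem _ _ (Submodule.subset_span ⟨k.2, ?_⟩)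
    rw [← hk]
  · have h6 : X.τ (k.1 ζ) - X.τ (φ ζ) ≠ 0 := by
      intro h7
      exact hk (hζ _ _ (X.τ.injective (sub_eq_zero.1 h7)))
    have h8 := (mul_eq_zero.1 (h5 k)).resolve_left h6
    rw [h8, zero_smul]
    exact Submodule.zero_mem _

/-- Membership in the type of the curve. -/
theorem mem_Ph {E : Type} [Field E] {m : ℕ} (hm : 0 < m) (ζ : E) (c d : ℕ) (χ : E →+* ℂ) :
    χ ∈ Ph m ζ c d ↔ (sg m ζ χ * c) % m + (sg m ζ χ * d) % m < m := by
  have hm' : (0 : ℝ) < m := Nat.cast_pos.2 hm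
  show fr m c (sg m ζ χ) + fr m d (sg m ζ χ) < 1 ↔ _
  unfold fr
  rw [← add_div, div_lt_one hm']
  norm_cast

/-- A label of the cyclotomic field is determined by the value at `ζ`. -/
theorem lab_zeta {X : GF} {m : ℕ} [NeZero m] {E : Type} [Field E] [NumberField E]
    [IsCyclotomicExtension {m} ℚ E] {ζ : E} (hζ : IsPrimitiveRoot ζ m) (φ ψ : E →+* X.K)
    (h : φ ζ = ψ ζ) : φ = ψ := by
  have h1 : φ.toRatAlgHom = ψ.toRatAlgHom := by
    refine (hζ.powerBasis ℚ).algHom_ext ?_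
    rw [hζ.powerBasis_gen ℚ]
    exact h
  ext z
  exact AlgHom.congr_fun h1 z

/-- The isomorphism `Y = J × ∏ T_i`. -/
def psY {A : AV} {r : ℕ} {B : Fin r → AV} (P : Prd B) (PD : Pd A P.Y) :
    PD.T.V ≃ₗ[ℂ] A.V × (∀ i, (B i).V) :=
  PD.ψ ≪≫ₗ (LinearEquiv.refl ℂ A.V).prodCongr P.ψ

theorem psY_apply {A : AV} {r : ℕ} {B : Fin r → AV} (P : Prd B) (PD : Pd A P.Y) (v : PD.T.V) :
    psY P PD v = ((PD.ψ v).1, P.ψ (PD.ψ v).2) := rfl

theorem psY_symm {A : AV} {r : ℕ} {B : Fin r → AV} (P : Prd B) (PD : Pd A P.Y)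
    (x : A.V × (∀ i, (B i).V)) : PD.ψ ((psY P PD).symm x) = (x.1, P.ψ.symm x.2) := by
  have h := (psY P PD).apply_symm_apply x
  rw [psY_apply] at h
  have h1 : (PD.ψ ((psY P PD).symm x)).1 = x.1 := congrArg Prod.fst h
  have h2 : P.ψ (PD.ψ ((psY P PD).symm x)).2 = x.2 := congrArg Prod.snd h
  refine Prod.ext h1 ?_
  rw [← h2]
  exact (P.ψ.symm_apply_apply _).symm

/-- **The input of `comp` from the values of `κ`.** -/
theorem inp_of {X : GF} {t : Tp X} {m : ℕ} [NeZero m] [IsCyclotomicExtension {m} ℚ t.E] {ζ : t.E}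
    (hζ : IsPrimitiveRoot ζ m) {Φ : Fin t.r → Set (t.E →+* ℂ)} (T : ∀ i, Cm1 t.E (Φ i))
    (P : Prd fun i => (T i).T) (BC : Blk X P.Y t.E t.r)
    (hBC : ∀ φ i, BC.b (φ, i) = wC T P (X.τ.comp φ) i) (PD : Pd t.T P.Y) (κ : Hlg PD.T (2 * t.r))
    (hκ : Alg2 PD.T (2 * t.r) κ) (φ : t.E →+* X.K) (a : Fin t.r → (t.T.V →ₗ[ℝ] ℂ))
    (ha : ∀ l v, a l (t.B.ρ ζ v) = X.τ (φ ζ) * a l v)
    (hval : κ (fun k => if h : k.1 < t.r
      then pull (LinearMap.fst ℂ _ _ ∘ₗ (psY P PD).toLinearMap) (a ⟨k.1, h⟩)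
      else pull (LinearMap.proj ⟨k.1 - t.r, by omega⟩ ∘ₗ LinearMap.snd ℂ _ _ ∘ₗ
        (psY P PD).toLinearMap)
        ((T ⟨k.1 - t.r, by omega⟩).w (ComplexEmbedding.conjugate (X.τ.comp φ)))) ≠ 0) :
    Inp @Alg2 t P.Y BC φ := by
  obtain ⟨c', hc', hcv⟩ := recast (two_mul t.r) κ hκ
  let A : Fin (2 * t.r) → (PD.T.V →ₗ[ℝ] ℂ) := fun k => if h : k.1 < t.r
      then pull (LinearMap.fst ℂ _ _ ∘ₗ (psY P PD).toLinearMap) (a ⟨k.1, h⟩)
      else pull (LinearMap.proj ⟨k.1 - t.r, by omega⟩ ∘ₗ LinearMap.snd ℂ _ _ ∘ₗ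
        (psY P PD).toLinearMap)
        ((T ⟨k.1 - t.r, by omega⟩).w (ComplexEmbedding.conjugate (X.τ.comp φ)))
  have hval' : κ A ≠ 0 := hval
  have hA : ∀ k, A k ∈ Submodule.span ℂ (Set.range (fun i => pull PD.pA (t.B.b (φ, i))) ∪
      Set.range fun i => pull PD.pB (BC.b (gl X.c φ, i))) := by
    intro k
    by_cases h : k.1 < t.r
    · have h1 := eig_span t.B (lab_zeta hζ) φ (a ⟨k.1, h⟩) (ha _)
      have h2 : A k = pull PD.pA (a ⟨k.1, h⟩) := dif_pos h
      rw [h2]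
      have h3 : pull PD.pA (a ⟨k.1, h⟩) ∈ (Submodule.span ℂ
          (Set.range fun i => t.B.b (φ, i))).map (pull PD.pA) := Submodule.mem_map_of_mem h1
      rw [Submodule.map_span, ← Set.range_comp] at h3
      exact Submodule.span_mono Set.subset_union_left h3
    · have hk : k.1 - t.r < t.r := by omega
      have h2 : A k = pull (LinearMap.proj ⟨k.1 - t.r, hk⟩ ∘ₗ LinearMap.snd ℂ _ _ ∘ₗ
        (psY P PD).toLinearMap)
        ((T ⟨k.1 - t.r, hk⟩).w (ComplexEmbedding.conjugate (X.τ.comp φ))) := dif_neg h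
      refine Submodule.subset_span (Or.inr ⟨⟨k.1 - t.r, hk⟩, ?_⟩)
      rw [h2]
      show pull PD.pB (BC.b (gl X.c φ, ⟨k.1 - t.r, hk⟩)) = _
      rw [hBC, lab_conj]
      rfl
  refine ⟨PD, c', fun j => A (Fin.cast (two_mul t.r).symm j), hc', fun j => hA _, ?_⟩
  rw [hcv]
  exact hval'

/-- The count of the CM type. -/
theorem delta_C {E : Type} [Field E] {m r : ℕ} (hm : 0 < m) (ζ : E) (c d : Fin r → ℕ)
    (χ : E →+* ℂ) :
    (∑ i, haveI := Classical.propDecidable (χ ∈ Ph m ζ (c i) (d i))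
      if χ ∈ Ph m ζ (c i) (d i) then Complex.I else -Complex.I) =
      Complex.I * (2 * ((Finset.univ.filter fun i : Fin r =>
        (sg m ζ χ * c i) % m + (sg m ζ χ * d i) % m < m).card : ℂ) - r) := by
  classical
  have h1 : ∀ i : Fin r, (haveI := Classical.propDecidable (χ ∈ Ph m ζ (c i) (d i))
      if χ ∈ Ph m ζ (c i) (d i) then Complex.I else -Complex.I) =
      2 * Complex.I * (if (sg m ζ χ * c i) % m + (sg m ζ χ * d i) % m < m then 1 else 0) -
        Complex.I := by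
    intro i
    by_cases h : χ ∈ Ph m ζ (c i) (d i)
    · rw [if_pos h, if_pos ((mem_Ph hm ζ _ _ χ).1 h)]
      ring
    · rw [if_neg h, if_neg (fun h2 => h ((mem_Ph hm ζ _ _ χ).2 h2))]
      ring
  rw [Finset.sum_congr rfl fun i _ => h1 i, Finset.sum_sub_distrib, ← Finset.mul_sum,
    Finset.sum_const, Finset.card_univ, Fintype.card_fin, Finset.sum_boole, nsmul_eq_mul]
  ring

/-- **S_DA from S_cyc.** -/
theorem da_main (hcyc : S_cyc) : S_DA := by
  intro X m r s b hcov hX J D R hR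
  have hm3 : 3 ≤ m := hcov.1
  have hm : 0 < m := by omega
  have : NeZero m := ⟨by omega⟩
  have hm0 : NeZero ((m : ℕ) : ℚ) := ⟨Nat.cast_ne_zero.2 (by omega)⟩
  let E := CyclotomicField m ℚ
  have hEc : IsCyclotomicExtension {m} ℚ E := CyclotomicField.isCyclotomicExtension m ℚ
  let ζ : E := IsCyclotomicExtension.zeta m ℚ E
  have hζ : IsPrimitiveRoot ζ m := IsCyclotomicExtension.zeta_spec m ℚ E
  have hCM : NumberField.IsCMField E :=
    IsCyclotomicExtension.Rat.isCMField E (S := {m}) ⟨m, rfl, hm3⟩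
  obtain ⟨B, inv, hB, hinv, htc, hadj⟩ := new_blk X hcov hX hζ D R hR
  let t : Tp X :=
    { T := J
      E := E
      r := r
      B := B
      inv := inv
      hinv := hinv
      tc := htc
      R := R
      rat := hR.1
      alt := hR.2.1
      herm := hR.2.2.1
      pos := hR.2.2.2.1
      adj := hadj }
  refine ⟨t, rfl, ζ, hζ, inferInstance, hB, fun u v => rfl, ?_⟩
  obtain ⟨c, d, hcd, hcount, hκ⟩ := hcyc m r s b hcov
  have hty : ∀ i, IsType (Ph m ζ (c i) (d i)) := fun i =>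
    isType_Ph (by omega) hζ (hcd i).1 (hcd i).2.1 (hcd i).2.2
  have hT : ∀ i, Nonempty (Cm1 E (Ph m ζ (c i) (d i))) := fun i => cm1 E _ (hty i)
  let T : ∀ i, Cm1 E (Ph m ζ (c i) (d i)) := fun i => Classical.choice (hT i)
  obtain ⟨P⟩ := tPex.1 (Fin r) fun i => (T i).T
  have hlab : Nonempty (E →+* X.K) := by
    obtain ⟨z, hz⟩ := hX
    have h1 : Polynomial.aeval z (minpoly ℚ (hζ.powerBasis ℚ).gen) = 0 := by
      rw [hζ.powerBasis_gen ℚ, ← Polynomial.cyclotomic_eq_minpoly_rat hζ (NeZero.pos m),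
        Polynomial.cyclotomic_eq_minpoly_rat hz (NeZero.pos m)]
      exact minpoly.aeval ℚ z
    exact ⟨((hζ.powerBasis ℚ).lift z h1).toRingHom⟩
  obtain ⟨BC, hBC, -, hpure, hδ⟩ := blkC T P X hlab hty
  obtain ⟨PD⟩ := pL0 J P.Y
  obtain ⟨κ, hκa, hκv⟩ := hκ E ζ hζ J D T PD.T (psY P PD) (fun v hv => by
      rw [PD.lat, psY_symm, map_zero]
      exact ⟨hv, P.Y.L.zero_mem⟩) (fun i v hv => by
      rw [PD.lat, psY_symm]
      refine ⟨J.L.zero_mem, ?_⟩
      rw [P.lat]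
      intro k
      rw [LinearEquiv.apply_symm_apply]
      by_cases hk : k = i
      · subst hk
        have h1 : (Pi.single k v : ∀ i, (T i).T.V) k = v :=
          Pi.single_eq_same (M := fun i => (T i).T.V) k v
        show (Pi.single k v : ∀ i, (T i).T.V) k ∈ (T k).T.L
        rw [h1]
        exact hv
      · have h1 : (Pi.single i v : ∀ i, (T i).T.V) k = 0 :=
          Pi.single_eq_of_ne (M := fun i => (T i).T.V) hk v
        show (Pi.single i v : ∀ i, (T i).T.V) k ∈ (T k).T.L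
        rw [h1]
        exact (T k).T.L.zero_mem)
  refine ⟨DA_of (t := t) clAlg2 (isCMC T P hty) hpure (fun φ => ?_) fun φ => ?_⟩
  · show B.δ φ = BC.δ φ
    rw [delta_J hcov D hζ B hB φ, hδ, delta_C hm ζ c d (X.τ.comp φ),
      hcount _ (sg_coprime hm hζ _)]
  · obtain ⟨a, ha, hav⟩ := hκv (X.τ.comp φ)
    exact inp_of (t := t) hζ T P BC hBC PD κ hκa φ a (fun l v => by
      have h1 := ha l v
      rw [← hB] at h1
      exact h1) hav

end S5
end SE
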