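import Pool.Agent.Lib.HC.D.Main

/-!
# PROJECT SE, part S5: isolation of a component (helper59)

`iso_gen`: a generic form of part D of PROJECT HC (helper81).  `b` is a basis of the real linear
functions on `T.V`, with a partition `fac : κ → ι` and numbers `lam : κ → ℂ`; the endomorphisms
`F a n`, `n ∈ ℤ`, act on `b k` by `n + lam k` if `fac k = a` and by `1` otherwise.  A linear space
`A` of homology classes stable under the `F a n` which contains a class `c` with
`c (b (f₀ 1), …, b (f₀ m)) ≠ 0` contains the wedge product of the dual vectors of the `b (f₀ j)`,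
provided that the range of `f₀` contains all `k` with the same `fac` and `lam` as some `f₀ j`.
-/

set_option autoImplicit false

noncomputable section

namespace SE
namespace S5

open HC

section

variable {κ ι : Type} (fac : κ → ι) (lam : κ → ℂ)

open Classical in
/-- The eigenvalue of `F a n` at a tuple. -/
def ev {m : ℕ} (a : ι) (n : ℤ) (f : Fin m → κ) : ℂ :=
  ∏ j, if fac (f j) = a then (n : ℂ) + lam (f j) else 1

/-- Separation of the eigenvalues. -/
theorem exists_sep {m : ℕ} (s t : Fin m → κ) (j0 : Fin m)
    (h : ∀ j, fac (t j) = fac (s j0) → lam (t j) ≠ lam (s j0)) :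
    ∃ (a : ι) (n : ℤ), ev fac lam a n s ≠ ev fac lam a n t := by
  classical
  by_contra hcon
  push Not at hcon
  set a := fac (s j0) with ha
  let P : (Fin m → κ) → Polynomial ℂ := fun s =>
    ∏ j, if fac (s j) = a then Polynomial.X + Polynomial.C (lam (s j)) else 1
  have hP : ∀ (u : Fin m → κ) (z : ℂ), (P u).eval z =
      ∏ j, if fac (u j) = a then z + lam (u j) else 1 := by
    intro u z
    rw [Polynomial.eval_prod]
    refine Finset.prod_congr rfl fun j _ => ?_
    split_ifs <;> simp
  have hk : ∀ (u : Fin m → κ) (k : ℤ), ev fac lam a k u = (P u).eval (k : ℂ) := by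
    intro u k
    rw [hP, ev]
  have heq : P s = P t := by
    apply Polynomial.eq_of_infinite_eval_eq
    refine Set.Infinite.mono ?_ (Set.infinite_range_of_injective (Int.cast_injective (α := ℂ)))
    rintro _ ⟨k, rfl⟩
    show (P s).eval (k : ℂ) = (P t).eval (k : ℂ)
    rw [← hk, ← hk]
    exact hcon a k
  have h1 : (P s).eval (-lam (s j0)) = 0 := by
    rw [hP]
    refine Finset.prod_eq_zero (Finset.mem_univ j0) ?_
    rw [if_pos rfl]
    exact neg_add_cancel _
  rw [heq, hP, Finset.prod_eq_zero_iff] at h1
  obtain ⟨j, _, hj⟩ := h1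
  by_cases hi : fac (t j) = a
  · rw [if_pos hi] at hj
    exact h j hi (by linear_combination hj)
  · rw [if_neg hi] at hj
    exact one_ne_zero hj

variable {T : AV} (b : Module.Basis κ ℂ (T.V →ₗ[ℝ] ℂ)) (F : ι → ℤ → (T.V →ₗ[ℂ] T.V))

open Classical in
/-- The action of `F a n` on the coordinates of a class. -/
theorem push_b (hF : ∀ a n k, pull (F a n) (b k) = (if fac k = a then (n : ℂ) + lam k else 1) • b k)
    {m : ℕ} (c : Hlg T m) (a : ι) (n : ℤ) (u : Fin m → κ) :
    push (F a n) c (fun j => b (u j)) = ev fac lam a n u * c (fun j => b (u j)) := by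
  rw [push_apply]
  have h1 : (fun i => pull (F a n) (b (u i))) =
      fun i => (if fac (u i) = a then (n : ℂ) + lam (u i) else 1) • b (u i) := by
    funext i
    exact hF a n (u i)
  rw [h1]
  exact c.toMultilinearMap.map_smul_univ (fun i => if fac (u i) = a then (n : ℂ) + lam (u i) else 1)
    fun i => b (u i)

open Classical in
/-- Removing components. -/
theorem remove (hF : ∀ a n k, pull (F a n) (b k) = (if fac k = a then (n : ℂ) + lam k else 1) • b k)
    {m : ℕ} (A : Submodule ℂ (Hlg T m)) (hA : ∀ a n, ∀ c ∈ A, push (F a n) c ∈ A)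
    (c : Hlg T m) (hc : c ∈ A) (s : Fin m → κ) (R : Finset (Fin m → κ))
    (hR : ∀ t ∈ R, ∃ j0, ∀ j, fac (s j) = fac (t j0) → lam (s j) ≠ lam (t j0)) :
    ∃ c' ∈ A, c' (fun j => b (s j)) = c (fun j => b (s j)) ∧
      ∀ t ∈ R, c' (fun j => b (t j)) = 0 := by
  induction R using Finset.induction_on with
  | empty => exact ⟨c, hc, rfl, fun t ht => absurd ht (Finset.notMem_empty t)⟩
  | insert t R htR ih =>
    obtain ⟨c', h1, h2, h3⟩ := ih fun u hu => hR u (Finset.mem_insert_of_mem hu)
    obtain ⟨j0, hj0⟩ := hR t (Finset.mem_insert_self t R)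
    obtain ⟨a, n, hne⟩ := exists_sep fac lam t s j0 hj0
    have hne' : ev fac lam a n s - ev fac lam a n t ≠ 0 := sub_ne_zero.2 hne.symm
    have hval : ∀ u : Fin m → κ,
        ((ev fac lam a n s - ev fac lam a n t)⁻¹ • (push (F a n) c' - ev fac lam a n t • c'))
          (fun j => b (u j)) = (ev fac lam a n s - ev fac lam a n t)⁻¹ *
            ((ev fac lam a n u - ev fac lam a n t) * c' (fun j => b (u j))) := by
      intro u
      rw [AlternatingMap.smul_apply, AlternatingMap.sub_apply, AlternatingMap.smul_apply,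
        push_b fac lam b F hF, smul_eq_mul, smul_eq_mul]
      ring
    refine ⟨(ev fac lam a n s - ev fac lam a n t)⁻¹ • (push (F a n) c' - ev fac lam a n t • c'),
      A.smul_mem _ (A.sub_mem (hA a n c' h1) (A.smul_mem _ h1)), ?_, ?_⟩
    · rw [hval, h2, ← mul_assoc, inv_mul_cancel₀ hne', one_mul]
    · intro u hu
      rw [hval]
      rcases Finset.mem_insert.1 hu with rfl | hu
      · rw [sub_self, zero_mul, mul_zero]
      · rw [h3 u hu, mul_zero, mul_zero]

open Classical in
/-- **Isolation of a component.** -/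
theorem iso_gen [Fintype κ]
    (hF : ∀ a n k, pull (F a n) (b k) = (if fac k = a then (n : ℂ) + lam k else 1) • b k)
    {m : ℕ} (A : Submodule ℂ (Hlg T m)) (hA : ∀ a n, ∀ c ∈ A, push (F a n) c ∈ A)
    (s : Fin m → κ) (hsat : ∀ k j, fac k = fac (s j) → lam k = lam (s j) → k ∈ Set.range s)
    (c : Hlg T m) (hc : c ∈ A) (hs : c (fun j => b (s j)) ≠ 0) :
    wdg (fun j => b.coord (s j)) ∈ A := by
  obtain ⟨c', h1, h2, h3⟩ := remove fac lam b F hF A hA c hc s
    (Finset.univ.filter fun t => ∃ j0, ∀ j, fac (s j) = fac (t j0) → lam (s j) ≠ lam (t j0))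
    (fun t ht => (Finset.mem_filter.1 ht).2)
  have hsinj : Function.Injective s := by
    intro i j hij
    by_contra hne
    exact hs (c.map_eq_zero_of_eq _ (congrArg b hij) hne)
  have hcs : c' = c (fun j => b (s j)) • wd (T := T) (fun j => b.coord (s j)) := by
    refine Module.Basis.ext_alternating b fun t ht => ?_
    rw [AlternatingMap.smul_apply, smul_eq_mul]
    by_cases h4 : ∃ j0, ∀ j, fac (s j) = fac (t j0) → lam (s j) ≠ lam (t j0)
    · obtain ⟨j0, hj0⟩ := h4
      have h5 : wd (T := T) (fun j => b.coord (s j)) (fun i => b (t i)) = 0 := by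
        rw [wd_apply]
        refine Matrix.det_eq_zero_of_column_eq_zero j0 fun i => ?_
        rw [Matrix.of_apply, Module.Basis.coord_apply, Module.Basis.repr_self,
          Finsupp.single_apply, if_neg]
        intro h6
        exact hj0 i (by rw [h6]) (by rw [h6])
      rw [h5, mul_zero]
      exact h3 t (Finset.mem_filter.2 ⟨Finset.mem_univ _, j0, hj0⟩)
    · push Not at h4
      have h5 : ∀ i, ∃ j, s j = t i := by
        intro i
        obtain ⟨j, hj, hj'⟩ := h4 i
        exact hsat (t i) j hj.symm hj'.symm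
      choose σ hσ using h5
      have hσinj : Function.Injective σ := by
        intro i j hij
        apply ht
        rw [← hσ i, ← hσ j, hij]
      let e : Equiv.Perm (Fin m) := Equiv.ofBijective σ (Finite.injective_iff_bijective.1 hσinj)
      have hts : t = fun j => s (e j) := by
        funext j
        exact (hσ j).symm
      have h6 : ∀ d : Hlg T m, d (fun j => b (t j)) =
          Equiv.Perm.sign e • d (fun j => b (s j)) := by
        intro d
        rw [hts]
        exact d.map_perm (fun j => b (s j)) e
      rw [h6 c', h6 (wd (T := T) (fun j => b.coord (s j))), wd_coord_apply_self b hsinj, h2]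
      rcases Int.units_eq_one_or (Equiv.Perm.sign e) with h | h <;> rw [h] <;> simp
  rw [D.wdg_eq]
  rw [hcs] at h1
  have h7 := A.smul_mem (c (fun j => b (s j)))⁻¹ h1
  rwa [smul_smul, inv_mul_cancel₀ hs, one_smul] at h7

end

end S5
end SE
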