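import Pool.Agent.Lib.SE.W.Defs
import Pool.Agent.Lib.SE.S5.Iso
import Pool.Agent.Lib.HC.L.Kb

/-!
# PROJECT SE, part S5: from a class with a nonzero value to the determinant classes (helper12)

* `Inp Q t C BC φ`: THE INPUT. A class of degree `2 r` of `T × C` in `Q` with a nonzero value on
  a family of 1-forms, each in the span of the pull backs of the forms of `T` of label `φ` and of
  the forms of `C` of label `c ∘ φ`.
* `comp`: then `det_φ(T) × det_(c φ)(C)` is in `Q`.
* `DA_of`: the structure `DA` of `W/Defs`.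
-/

set_option autoImplicit false

noncomputable section

namespace SE
namespace S5

open HC HC.Fund

variable {X : GF}

/-- Homomorphisms up to isogeny. -/
theorem cl_push {Q : (T : AV) → (m : ℕ) → Hlg T m → Prop} (hQ : Cl Q) {T T' : AV} {m : ℕ}
    (F : T.V →ₗ[ℂ] T'.V) (N : ℕ) (hN : N ≠ 0) (hF : ∀ v ∈ T.L, (N : ℂ) • F v ∈ T'.L)
    {c : Hlg T m} (hc : Q T m c) : Q T' m (HC.push F c) := by
  have h1 := hQ.push (((N : ℝ) : ℂ) • F) (fun v hv => by
    rw [LinearMap.smul_apply, Complex.ofReal_natCast]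
    exact hF v hv) hc
  rw [push_rsmul] at h1
  have h2 : (((N : ℝ) : ℂ)) ^ m ≠ 0 := by
    apply pow_ne_zero
    rw [Complex.ofReal_natCast]
    exact Nat.cast_ne_zero.2 hN
  have h3 := hQ.smul ((((N : ℝ) : ℂ)) ^ m)⁻¹ h1
  rwa [smul_smul, inv_mul_cancel₀ h2, one_smul] at h3

/-- The classes in `Q` as a linear space. -/
def subC {Q : (T : AV) → (m : ℕ) → Hlg T m → Prop} (hQ : Cl Q) (T : AV) (m : ℕ) :
    Submodule ℂ (Hlg T m) where
  carrier := {c | Q T m c}
  zero_mem' := hQ.base Alg.zero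
  add_mem' hc hd := hQ.add hc hd
  smul_mem' x _ hc := hQ.smul x hc

theorem mem_subC {Q : (T : AV) → (m : ℕ) → Hlg T m → Prop} (hQ : Cl Q) {T : AV} {m : ℕ}
    {c : Hlg T m} : c ∈ subC hQ T m ↔ Q T m c := Iff.rfl

section
variable {T : AV} {E : Type} [Field E] [NumberField E] {r : ℕ} (B : Blk X T E r)
include B

/-- The coordinates separate points. -/
theorem blk_injC {u v : T.V} (h : ∀ φ i, B.b (φ, i) u = B.b (φ, i) v) : u = v := by
  have h1 : ∀ a : T.V →ₗ[ℝ] ℂ, a (u - v) = 0 := by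
    intro a
    have h2 : a ∈ Submodule.span ℂ (Set.range B.b) := by
      rw [B.b.span_eq]
      exact Submodule.mem_top
    induction h2 using Submodule.span_induction with
    | mem a ha =>
      obtain ⟨k, rfl⟩ := ha
      rw [map_sub, h k.1 k.2, sub_self]
    | zero => rfl
    | add a b _ _ ha hb => rw [LinearMap.add_apply, ha, hb, add_zero]
    | smul x a _ ha =>
      show x * a (u - v) = 0
      rw [ha, mul_zero]
  rw [← sub_eq_zero]
  refine (Module.forall_dual_apply_eq_zero_iff ℝ (u - v)).1 fun f => ?_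
  have h3 := h1 ((Complex.ofRealCLM.toLinearMap) ∘ₗ f)
  have h4 : ((f (u - v) : ℝ) : ℂ) = 0 := h3
  exact_mod_cast h4

/-- A real linear map given by multiplications by elements of `E` on the coordinates is rational. -/
theorem blk_N (F : T.V →ₗ[ℝ] T.V) (x : Fin r → E)
    (hF : ∀ φ i v, B.b (φ, i) (F v) = X.τ (φ (x i)) * B.b (φ, i) v) :
    ∃ N : ℕ, N ≠ 0 ∧ ∀ v ∈ T.L, (N : ℝ) • F v ∈ T.L := by
  have h1 : ∀ v ∈ T.L, ∃ N : ℕ, N ≠ 0 ∧ (N : ℝ) • F v ∈ T.L := by
    intro v hv
    obtain ⟨y, hy⟩ := B.lat v hv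
    obtain ⟨N, hN, w, hw, hwb⟩ := B.mem fun i => x i * y i
    refine ⟨N, hN, ?_⟩
    have h2 : (N : ℝ) • F v = w := by
      refine blk_injC B fun φ i => ?_
      rw [map_smul, hF, hwb, hy, map_mul, map_mul]
      show ((N : ℝ) : ℂ) * _ = _
      rw [Complex.ofReal_natCast]
    rw [h2]
    exact hw
  choose! n hn0 hn using fun i : Ix T => h1 (bZ T i : T.V) (bZ T i).2
  refine ⟨∏ i, n i, Finset.prod_ne_zero_iff.2 fun i _ => hn0 i, fun v hv => ?_⟩
  have h3 : v = ∑ i, (bZ T).repr ⟨v, hv⟩ i • (bZ T i : T.V) := by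
    have h4 := congrArg Subtype.val ((bZ T).sum_repr ⟨v, hv⟩)
    rw [AddSubmonoidClass.coe_finsetSum] at h4
    exact h4.symm
  rw [h3, map_sum, Finset.smul_sum]
  refine T.L.sum_mem fun i _ => ?_
  rw [map_zsmul, smul_comm]
  refine T.L.smul_mem _ ?_
  classical
  rw [← Finset.mul_prod_erase _ _ (Finset.mem_univ i), mul_comm, Nat.cast_mul, mul_smul,
    Nat.cast_smul_eq_nsmul ℝ (∏ j ∈ Finset.univ.erase i, n j)]
  exact T.L.nsmul_mem (hn i) _

/-- Diagonal endomorphisms. -/
theorem blk_diag (hp : B.Pure) (x : Fin r → E) : ∃ F : T.V →ₗ[ℂ] T.V,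
    ∀ φ i v, B.b (φ, i) (F v) = X.τ (φ (x i)) * B.b (φ, i) v := by
  have h1 : ∀ j : Ix T, ∃ w : T.V, ∀ φ i,
      B.b (φ, i) w = X.τ (φ (x i)) * B.b (φ, i) (bZ T j : T.V) := by
    intro j
    obtain ⟨y, hy⟩ := B.lat (bZ T j : T.V) (bZ T j).2
    obtain ⟨N, hN, w, hw, hwb⟩ := B.mem fun i => x i * y i
    refine ⟨((N : ℝ))⁻¹ • w, fun φ i => ?_⟩
    rw [map_smul, hwb, hy, map_mul, map_mul]
    show (((N : ℝ)⁻¹ : ℝ) : ℂ) * _ = _
    have hNC : (N : ℂ) ≠ 0 := Nat.cast_ne_zero.2 hN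
    rw [Complex.ofReal_inv, Complex.ofReal_natCast]
    field_simp
  choose w hw using h1
  have hbR : ∀ j, bR T j = (bZ T j : T.V) := fun j =>
    Module.Basis.ofZLatticeBasis_apply ℝ T.L (bZ T) j
  let F : T.V →ₗ[ℝ] T.V := (bR T).constr ℝ w
  have hF : ∀ φ i v, B.b (φ, i) (F v) = X.τ (φ (x i)) * B.b (φ, i) v := by
    intro φ i v
    have h2 : (B.b (φ, i)) ∘ₗ F = X.τ (φ (x i)) • B.b (φ, i) := by
      refine (bR T).ext fun j => ?_
      rw [LinearMap.comp_apply, Module.Basis.constr_basis, hw, LinearMap.smul_apply, hbR,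
        smul_eq_mul]
    exact LinearMap.congr_fun h2 v
  have hI : ∀ v, F (Complex.I • v) = Complex.I • F v := by
    intro v
    refine blk_injC B fun φ i => ?_
    obtain ⟨e, -, he⟩ := hp φ i
    rw [hF, he, he, hF]
    ring
  refine ⟨{ toFun := F, map_add' := map_add F, map_smul' := fun z v => ?_ }, hF⟩
  have h3 : z • v = z.re • v + z.im • (Complex.I • v) := by
    conv_lhs => rw [← Complex.re_add_im z]
    rw [add_smul, mul_smul, Complex.coe_smul, Complex.coe_smul]
  have h4 : z • F v = z.re • F v + z.im • (Complex.I • F v) := by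
    conv_lhs => rw [← Complex.re_add_im z]
    rw [add_smul, mul_smul, Complex.coe_smul, Complex.coe_smul]
  show F (z • v) = z • F v
  rw [h3, map_add, map_smul, map_smul, hI, h4]

end

/-- An element with different conjugates. -/
theorem exists_gen (X : GF) (E : Type) [Field E] [NumberField E] :
    ∃ x : E, ∀ φ ψ : E →+* X.K, φ x = ψ x → φ = ψ := by
  obtain ⟨α, hα⟩ := Field.exists_primitive_element ℚ E
  refine ⟨α, fun φ ψ h => ?_⟩
  have h1 : φ.toRatAlgHom = ψ.toRatAlgHom := by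
    have h3 : Algebra.adjoin ℚ {α} = ⊤ := by
      rw [← IntermediateField.adjoin_simple_toSubalgebra_of_isAlgebraic
        (Algebra.IsAlgebraic.isAlgebraic α), hα]
      rfl
    refine AlgHom.ext_of_adjoin_eq_top h3 ?_
    intro z hz
    rw [Set.mem_singleton_iff] at hz
    rw [hz]
    exact h
  ext z
  exact AlgHom.congr_fun h1 z

/-- THE INPUT OF S5. -/
def Inp (Q : (T : AV) → (m : ℕ) → Hlg T m → Prop) (t : Tp X) (C : AV) (BC : Blk X C t.E t.r)
    (φ : t.E →+* X.K) : Prop :=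
  ∃ (P : Pd t.T C) (c : Hlg P.T (t.r + t.r)) (a : Fin (t.r + t.r) → (P.T.V →ₗ[ℝ] ℂ)),
    Q P.T (t.r + t.r) c ∧
    (∀ j, a j ∈ Submodule.span ℂ (Set.range (fun i => pull P.pA (t.B.b (φ, i))) ∪
      Set.range fun i => pull P.pB (BC.b (gl X.c φ, i)))) ∧
    c a ≠ 0

section
variable {t : Tp X} {C : AV} {BC : Blk X C t.E t.r}

/-- The indices of the component. -/
def sel (E : Type) [Field E] (r : ℕ) (φ : E →+* X.K) :
    Fin (r + r) → ((E →+* X.K) × Fin r) ⊕ ((E →+* X.K) × Fin r) :=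
  Fin.append (fun i => Sum.inl (φ, i)) (fun i => Sum.inr (gl X.c φ, i))

theorem sel_inj (E : Type) [Field E] (r : ℕ) (φ : E →+* X.K) : Function.Injective (sel E r φ) := by
  intro i j h
  induction i using Fin.addCases with
  | left i =>
    induction j using Fin.addCases with
    | left j =>
      simp only [sel, Fin.append_left, Sum.inl.injEq, Prod.mk.injEq, true_and] at h
      rw [h]
    | right j =>
      rw [sel, Fin.append_left, Fin.append_right] at h
      exact absurd h (by simp)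
  | right i =>
    induction j using Fin.addCases with
    | left j =>
      rw [sel, Fin.append_left, Fin.append_right] at h
      exact absurd h (by simp)
    | right j =>
      simp only [sel, Fin.append_right, Sum.inr.injEq, Prod.mk.injEq, true_and] at h
      rw [h]

theorem pA_iA {A B : AV} (P : Pd A B) (v : A.V) : P.pA (P.iA v) = v := by
  rw [P.pA_apply, P.psi_iA]

theorem pA_iB {A B : AV} (P : Pd A B) (v : B.V) : P.pA (P.iB v) = 0 := by
  rw [P.pA_apply, P.psi_iB]

theorem pB_iA {A B : AV} (P : Pd A B) (v : A.V) : P.pB (P.iA v) = 0 := by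
  rw [P.pB_apply, P.psi_iA]

theorem pB_iB {A B : AV} (P : Pd A B) (v : B.V) : P.pB (P.iB v) = v := by
  rw [P.pB_apply, P.psi_iB]

/-- The endomorphisms used for the isolation. -/
def En (P : Pd t.T C) (x : t.E) (D : Fin t.r → ℤ → (C.V →ₗ[ℂ] C.V)) :
    Option (Fin t.r) → ℤ → (P.T.V →ₗ[ℂ] P.T.V)
  | none, n => P.iA ∘ₗ (t.B.ρ (n + x)) ∘ₗ P.pA + P.iB ∘ₗ P.pB
  | some i, n => P.iA ∘ₗ P.pA + P.iB ∘ₗ (D i n) ∘ₗ P.pB

/-- The isolated component for the product `P` of the input. -/
theorem comp1 {Q : (T : AV) → (m : ℕ) → Hlg T m → Prop} (hQ : Cl Q) (hp : BC.Pure)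
    {φ : t.E →+* X.K} (P : Pd t.T C) (c : Hlg P.T (t.r + t.r))
    (a : Fin (t.r + t.r) → (P.T.V →ₗ[ℝ] ℂ)) (hc : Q P.T (t.r + t.r) c)
    (ha : ∀ j, a j ∈ Submodule.span ℂ (Set.range (fun i => pull P.pA (t.B.b (φ, i))) ∪
      Set.range fun i => pull P.pB (BC.b (gl X.c φ, i))))
    (hca : c a ≠ 0) :
    Q P.T (t.r + t.r) (HC.pont (HC.push P.iA (wdg fun i => t.B.b.coord (φ, i)))
      (HC.push P.iB (wdg fun i => BC.b.coord (gl X.c φ, i)))) := by
  classical
  obtain ⟨x, hx⟩ := exists_gen X t.E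
  have hD : ∀ (i : Fin t.r) (n : ℤ), ∃ F : C.V →ₗ[ℂ] C.V, ∀ φ j v, BC.b (φ, j) (F v) =
      X.τ (φ (if j = i then (n : t.E) + x else 1)) * BC.b (φ, j) v := fun i n =>
    blk_diag BC hp _
  choose D hD using hD
  set b := P.bas t.B.b BC.b with hb
  let fac : ((t.E →+* X.K) × Fin t.r) ⊕ ((t.E →+* X.K) × Fin t.r) → Option (Fin t.r) :=
    Sum.elim (fun _ => none) (fun k => some k.2)
  let lam : ((t.E →+* X.K) × Fin t.r) ⊕ ((t.E →+* X.K) × Fin t.r) → ℂ :=
    Sum.elim (fun k => X.τ (k.1 x)) (fun k => X.τ (k.1 x))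
  have hF : ∀ a n k, pull (En P x D a n) (b k) =
      (if fac k = a then (n : ℂ) + lam k else 1) • b k := by
    intro a n k
    refine LinearMap.ext fun v => ?_
    show b k (En P x D a n v) = (if fac k = a then (n : ℂ) + lam k else 1) * b k v
    rcases k with k | k
    · rw [hb, P.bas_inl]
      show t.B.b k (P.pA (En P x D a n v)) = (if none = a then (n : ℂ) + X.τ (k.1 x) else 1) *
        t.B.b k (P.pA v)
      rcases a with _ | a
      · rw [if_pos rfl]
        have h1 : P.pA (En P x D none n v) = t.B.ρ (n + x) (P.pA v) := by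
          show P.pA (P.iA (t.B.ρ (n + x) (P.pA v)) + P.iB (P.pB v)) = _
          rw [map_add, pA_iA, pA_iB, add_zero]
        rw [h1, ← Prod.mk.eta (p := k), t.B.act, map_add, map_add, map_intCast, map_intCast]
      · rw [if_neg (by simp), one_mul]
        have h1 : P.pA (En P x D (some a) n v) = P.pA v := by
          show P.pA (P.iA (P.pA v) + P.iB (D a n (P.pB v))) = _
          rw [map_add, pA_iA, pA_iB, add_zero]
        rw [h1]
    · rw [hb, P.bas_inr]
      show BC.b k (P.pB (En P x D a n v)) = (if some k.2 = a then (n : ℂ) + X.τ (k.1 x) else 1) *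
        BC.b k (P.pB v)
      rcases a with _ | a
      · rw [if_neg (by simp), one_mul]
        have h1 : P.pB (En P x D none n v) = P.pB v := by
          show P.pB (P.iA (t.B.ρ (n + x) (P.pA v)) + P.iB (P.pB v)) = _
          rw [map_add, pB_iA, pB_iB, zero_add]
        rw [h1]
      · have h1 : P.pB (En P x D (some a) n v) = D a n (P.pB v) := by
          show P.pB (P.iA (P.pA v) + P.iB (D a n (P.pB v))) = _
          rw [map_add, pB_iA, pB_iB, zero_add]
        rw [h1, ← Prod.mk.eta (p := k), hD]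
        by_cases h2 : k.2 = a
        · rw [if_pos h2, if_pos (by rw [h2]), map_add, map_add, map_intCast, map_intCast]
        · rw [if_neg h2, if_neg (by simpa using h2), map_one, map_one]
  have hA : ∀ a n, ∀ c ∈ subC hQ P.T (t.r + t.r), HC.push (En P x D a n) c ∈
      subC hQ P.T (t.r + t.r) := by
    intro a n c hc
    rw [mem_subC] at hc ⊢
    rcases a with _ | a
    · obtain ⟨N, hN, hN'⟩ := blk_N t.B ((t.B.ρ (n + x)).restrictScalars ℝ)
        (fun _ => (n : t.E) + x) (fun φ i v => t.B.act φ i _ v)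
      refine cl_push hQ _ N hN (fun v hv => ?_) hc
      rw [P.lat] at hv ⊢
      have h1 : P.ψ ((N : ℂ) • En P x D none n v) =
          ((N : ℝ) • t.B.ρ (n + x) (P.ψ v).1, (N : ℂ) • (P.ψ v).2) := by
        show P.ψ ((N : ℂ) • (P.iA (t.B.ρ (n + x) (P.pA v)) + P.iB (P.pB v))) = _
        rw [map_smul, map_add, P.psi_iA, P.psi_iB, P.pA_apply, P.pB_apply]
        ext
        · simp [← Complex.coe_smul]
        · simp
      rw [h1]
      refine ⟨hN' _ hv.1, ?_⟩
      show (N : ℂ) • (P.ψ v).2 ∈ C.L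
      rw [Nat.cast_smul_eq_nsmul]
      exact C.L.nsmul_mem hv.2 N
    · obtain ⟨N, hN, hN'⟩ := blk_N BC ((D a n).restrictScalars ℝ)
        (fun j => if j = a then (n : t.E) + x else 1) (fun φ i v => hD a n φ i v)
      refine cl_push hQ _ N hN (fun v hv => ?_) hc
      rw [P.lat] at hv ⊢
      have h1 : P.ψ ((N : ℂ) • En P x D (some a) n v) =
          ((N : ℂ) • (P.ψ v).1, (N : ℝ) • D a n (P.ψ v).2) := by
        show P.ψ ((N : ℂ) • (P.iA (P.pA v) + P.iB (D a n (P.pB v)))) = _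
        rw [map_smul, map_add, P.psi_iA, P.psi_iB, P.pA_apply, P.pB_apply]
        ext
        · simp
        · simp [← Complex.coe_smul]
      rw [h1]
      refine ⟨?_, hN' _ hv.2⟩
      show (N : ℂ) • (P.ψ v).1 ∈ t.T.L
      rw [Nat.cast_smul_eq_nsmul]
      exact t.T.L.nsmul_mem hv.1 N
  have hsat : ∀ k j, fac k = fac (sel t.E t.r φ j) → lam k = lam (sel t.E t.r φ j) →
      k ∈ Set.range (sel t.E t.r φ) := by
    intro k j hk hl
    induction j using Fin.addCases with
    | left j =>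
      simp only [sel, Fin.append_left] at hk hl
      rcases k with k | k
      · have h1 : k.1 = φ := hx _ _ (X.τ.injective hl)
        refine ⟨Fin.castAdd t.r k.2, ?_⟩
        rw [sel, Fin.append_left, ← h1]
      · exact absurd hk (by simp [fac])
    | right j =>
      simp only [sel, Fin.append_right] at hk hl
      rcases k with k | k
      · exact absurd hk (by simp [fac])
      · have h1 : k.1 = gl X.c φ := hx _ _ (X.τ.injective hl)
        refine ⟨Fin.natAdd t.r k.2, ?_⟩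
        rw [sel, Fin.append_right, ← h1]
  -- the value on the basis
  have hval : c (fun j => b (sel t.E t.r φ j)) ≠ 0 := by
    intro h0
    apply hca
    have hli : LinearIndependent ℂ fun j => b (sel t.E t.r φ j) :=
      b.linearIndependent.comp _ (sel_inj t.E t.r φ)
    let W := Submodule.span ℂ (Set.range fun j => b (sel t.E t.r φ j))
    have hW : ∀ j, a j ∈ W := by
      intro j
      refine Submodule.span_mono ?_ (ha j)
      rintro _ (⟨i, rfl⟩ | ⟨i, rfl⟩)
      · refine ⟨Fin.castAdd t.r i, ?_⟩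
        simp only [sel, Fin.append_left]
        rw [hb, P.bas_inl]
      · refine ⟨Fin.natAdd t.r i, ?_⟩
        simp only [sel, Fin.append_right]
        rw [hb, P.bas_inr]
    let e : Module.Basis (Fin (t.r + t.r)) ℂ W := Module.Basis.span hli
    have he : ∀ j, (e j : P.T.V →ₗ[ℝ] ℂ) = b (sel t.E t.r φ j) := fun j =>
      congrArg Subtype.val (Module.Basis.span_apply hli j) |>.trans rfl
    have h1 := AlternatingMap.eq_smul_basis_det e (c.compLinearMap W.subtype)
    have h2 : (c.compLinearMap W.subtype) (fun j => (⟨a j, hW j⟩ : W)) = c a := rfl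
    rw [← h2, h1]
    have h3 : (c.compLinearMap W.subtype) e = 0 := by
      show c (fun j => (e j : P.T.V →ₗ[ℝ] ℂ)) = 0
      simp only [he]
      exact h0
    rw [h3, zero_smul]
    rfl
  have h5 := iso_gen fac lam b (En P x D) (fun a n k => by
    rw [hF a n k]
    congr 1
    split_ifs <;> rfl) (subC hQ P.T (t.r + t.r)) hA (sel t.E t.r φ) hsat c hc hval
  have h6 : (wdg fun j => b.coord (sel t.E t.r φ j)) =
      (HC.pont (HC.push P.iA (wdg fun i => t.B.b.coord (φ, i)))
        (HC.push P.iB (wdg fun i => BC.b.coord (gl X.c φ, i)))) := by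
    rw [← P.kap_apply, wdg_eq_wd, wdg_eq_wd, wdg_eq_wd, P.kap_wd]
    congr 1
    funext j
    induction j using Fin.addCases with
    | left j => rw [sel, Fin.append_left, Fin.append_left, hb, P.coord_inl]
    | right j => rw [sel, Fin.append_right, Fin.append_right, hb, P.coord_inr]
  rw [← h6]
  exact h5

/-- **THE DETERMINANT CLASS** of label `φ`. -/
theorem comp {Q : (T : AV) → (m : ℕ) → Hlg T m → Prop} (hQ : Cl Q) (hp : BC.Pure)
    {φ : t.E →+* X.K} (h : Inp Q t C BC φ) (P : Pd t.T C) (i₁ : t.T.V →ₗ[ℂ] P.T.V)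
    (i₂ : C.V →ₗ[ℂ] P.T.V) (h₁ : ∀ v, P.ψ (i₁ v) = (v, 0)) (h₂ : ∀ v, P.ψ (i₂ v) = (0, v)) :
    Q P.T (t.r + t.r) (HC.pont (HC.push i₁ (wdg fun i => t.B.b.coord (φ, i)))
      (HC.push i₂ (wdg fun i => BC.b.coord (gl X.c φ, i)))) := by
  obtain ⟨P', c, a, hc, ha, hca⟩ := h
  have h1 := comp1 hQ hp P' c a hc ha hca
  let θ : P'.T.V →ₗ[ℂ] P.T.V := P.ψ.symm.toLinearMap ∘ₗ P'.ψ.toLinearMap
  have h2 := hQ.push (T' := P.T) θ (fun v hv => by
    rw [P.lat]
    have h3 : P.ψ (θ v) = P'.ψ v := P.ψ.apply_symm_apply _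
    rw [h3]
    exact (P'.lat v).1 hv) h1
  have e1 : θ ∘ₗ P'.iA = i₁ := by
    refine LinearMap.ext fun v => P.ψ.injective ?_
    rw [h₁]
    have h3 : P.ψ (θ (P'.iA v)) = P'.ψ (P'.iA v) := P.ψ.apply_symm_apply _
    rw [LinearMap.comp_apply, h3, P'.psi_iA]
  have e2 : θ ∘ₗ P'.iB = i₂ := by
    refine LinearMap.ext fun v => P.ψ.injective ?_
    rw [h₂]
    have h3 : P.ψ (θ (P'.iB v)) = P'.ψ (P'.iB v) := P.ψ.apply_symm_apply _
    rw [LinearMap.comp_apply, h3, P'.psi_iB]
  have e3 : HC.push (T' := P.T) θ (HC.pont (HC.push P'.iA (wdg fun i => t.B.b.coord (φ, i)))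
      (HC.push P'.iB (wdg fun i => BC.b.coord (gl X.c φ, i)))) =
      HC.pont (HC.push i₁ (wdg fun i => t.B.b.coord (φ, i)))
      (HC.push i₂ (wdg fun i => BC.b.coord (gl X.c φ, i))) := by
    rw [← P'.kap_apply, wdg_eq_wd, wdg_eq_wd, P'.kap_wd, push_wd, push_wd, push_wd, pont_wd]
    congr 1
    funext j
    induction j using Fin.addCases with
    | left j =>
      rw [Fin.append_left, Fin.append_left, ← e1]
      rfl
    | right j =>
      rw [Fin.append_right, Fin.append_right, ← e2]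
      rfl
  rw [e3] at h2
  exact h2

/-- **The output of S5.** -/
def DA_of {Q : (T : AV) → (m : ℕ) → Hlg T m → Prop} (hQ : Cl Q) (cm : IsCM C) (hp : BC.Pure)
    (ht : ∀ φ, t.B.δ φ = BC.δ φ) (h : ∀ φ, Inp Q t C BC φ) : DA Q t where
  C := C
  cm := cm
  BC := BC
  pure := hp
  type := ht
  alg φ P i₁ i₂ h₁ h₂ := comp hQ hp (h φ) P i₁ i₂ h₁ h₂

end

end S5
end SE
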