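import Pool.Agent.Lib.SE.S5.Cm1
import Pool.Agent.Lib.SE.S5.Comp

/-!
# PROJECT SE, G4 (helper12): coordinates of `ℂ^Φ / Φ(O_E)` and of products

* `lab`: the labels `E → K` are the embeddings `E → ℂ`.
* `mkBlk`: a `Blk` from functions with the right values on the lattice.
* `rhoC`, `w_rho`, `w_I`, `w_lat`: the action of `E` on `ℂ^Φ`, the functions `Cm1.w`.
-/

set_option autoImplicit false

open scoped ComplexConjugate
open NumberField

noncomputable section

namespace SE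
namespace S5

open HC HC.SE

/-! ### Labels -/

/-- Every embedding of `K` is `τ ∘ g`. -/
theorem gf_aut (X : GF) (p : X.K →+* ℂ) : ∃ g : X.G, ∀ x, p x = X.τ (g x) := by
  let _ : Algebra X.K ℂ := X.τ.toAlgebra
  have h1 : IsScalarTower ℚ X.K ℂ := IsScalarTower.of_algebraMap_eq fun x => by
    rw [eq_ratCast (algebraMap ℚ X.K), map_ratCast (algebraMap X.K ℂ), eq_ratCast]
  let q : X.K →ₐ[ℚ] ℂ := RingHom.toRatAlgHom p
  refine ⟨q.restrictNormal' X.K, fun x => ?_⟩
  have := q.restrictNormal_commutes X.K x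
  exact this.symm

/-- Every embedding of `E` comes from a label. -/
theorem lab_surj (X : GF) (E : Type) [Field E] [NumberField E] (h : Nonempty (E →+* X.K))
    (χ : E →+* ℂ) : ∃ φ : E →+* X.K, X.τ.comp φ = χ := by
  obtain ⟨φ₀⟩ := h
  let _ : Algebra E X.K := φ₀.toAlgebra
  let _ : Algebra E ℂ := χ.toAlgebra
  have h1 : IsScalarTower ℚ E X.K := IsScalarTower.of_algebraMap_eq fun x => by
    rw [eq_ratCast (algebraMap ℚ E), map_ratCast (algebraMap E X.K), eq_ratCast]
  have h2 : Algebra.IsAlgebraic E X.K := Algebra.IsAlgebraic.tower_top (K := ℚ) E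
  let q : X.K →ₐ[E] ℂ := IsAlgClosed.lift
  obtain ⟨g, hg⟩ := gf_aut X (q : X.K →+* ℂ)
  refine ⟨gl g φ₀, ?_⟩
  ext x
  have h3 : q (φ₀ x) = χ x := q.commutes x
  rw [← h3]
  exact (hg (φ₀ x)).symm

theorem lab_inj (X : GF) (E : Type) [Field E] (φ ψ : E →+* X.K)
    (h : X.τ.comp φ = X.τ.comp ψ) : φ = ψ := by
  ext x
  exact X.τ.injective (RingHom.congr_fun h x)

/-- The labels are the embeddings. -/
def lab (X : GF) (E : Type) [Field E] [NumberField E] (h : Nonempty (E →+* X.K)) :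
    (E →+* X.K) ≃ (E →+* ℂ) :=
  Equiv.ofBijective (fun φ => X.τ.comp φ)
    ⟨fun φ ψ hh => lab_inj X E φ ψ hh, fun χ => lab_surj X E h χ⟩

theorem lab_apply (X : GF) (E : Type) [Field E] [NumberField E] (h : Nonempty (E →+* X.K))
    (φ : E →+* X.K) : lab X E h φ = X.τ.comp φ := rfl

theorem lab_conj (X : GF) (E : Type) [Field E] (φ : E →+* X.K) :
    X.τ.comp (gl X.c φ) = ComplexEmbedding.conjugate (X.τ.comp φ) := by
  ext x
  exact X.hc (φ x)

/-! ### The block -/

/-- A `Blk` from functions with the right values on the lattice. -/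
theorem mkBlk (X : GF) (E : Type) [Field E] [NumberField E] (h : Nonempty (E →+* X.K)) (C : AV)
    (r : ℕ) (w : (E →+* ℂ) → Fin r → (C.V →ₗ[ℝ] ℂ))
    (hlat : ∀ v ∈ C.L, ∃ y : Fin r → E, ∀ χ i, w χ i v = χ (y i))
    (hmem : ∀ y : Fin r → E, (∀ i, IsIntegral ℤ (y i)) → ∃ v ∈ C.L, ∀ χ i, w χ i v = χ (y i))
    (hdim : 2 * Module.finrank ℂ C.V = r * Module.finrank ℚ E)
    (ρ : E →+* Module.End ℂ C.V) (hρ : ∀ χ i x v, w χ i (ρ x v) = χ x * w χ i v) :
    ∃ B : Blk X C E r, (∀ φ i, B.b (φ, i) = w (X.τ.comp φ) i) ∧ B.ρ = ρ := by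
  classical
  let f : (E →+* X.K) × Fin r → (C.V →ₗ[ℝ] ℂ) := fun k => w (X.τ.comp k.1) k.2
  have hli : LinearIndependent ℂ f := by
    rw [Fintype.linearIndependent_iff]
    intro α hα
    rintro ⟨φ, i⟩
    have h1 := coef_zeroE E (fun χ => α ((lab X E h).symm χ, i)) (fun y hy => ?_)
      (X.τ.comp φ)
    · have h2 : (lab X E h).symm (X.τ.comp φ) = φ := by
        rw [← lab_apply X E h, Equiv.symm_apply_apply]
      simp only [h2] at h1
      exact h1
    · obtain ⟨v, hv, hvw⟩ := hmem (Pi.single i y) (fun j => by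
        by_cases hj : j = i
        · subst hj
          rw [Pi.single_eq_same]
          exact hy
        · rw [Pi.single_eq_of_ne hj]
          exact isIntegral_zero)
      have h2 := LinearMap.congr_fun hα v
      rw [LinearMap.sum_apply, LinearMap.zero_apply, Fintype.sum_prod_type] at h2
      have h3 : ∀ φ' : E →+* X.K, ∑ j, (α (φ', j) • f (φ', j)) v = α (φ', i) * (X.τ.comp φ') y := by
        intro φ'
        rw [Finset.sum_eq_single i]
        · rw [LinearMap.smul_apply, smul_eq_mul]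
          show α (φ', i) * w (X.τ.comp φ') i v = _
          rw [hvw, Pi.single_eq_same]
        · intro j _ hj
          rw [LinearMap.smul_apply, smul_eq_mul]
          show α (φ', j) * w (X.τ.comp φ') j v = _
          rw [hvw, Pi.single_eq_of_ne hj, map_zero, mul_zero]
        · intro hh
          exact absurd (Finset.mem_univ i) hh
      rw [Finset.sum_congr rfl fun φ' _ => h3 φ'] at h2
      rw [← h2]
      refine (Fintype.sum_equiv (lab X E h) _ _ fun φ' => ?_).symm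
      rw [Equiv.symm_apply_apply, lab_apply]
  have hcard : Fintype.card ((E →+* X.K) × Fin r) = Module.finrank ℂ (C.V →ₗ[ℝ] ℂ) := by
    rw [Fintype.card_prod, Fintype.card_fin, Fintype.card_congr (lab X E h),
      NumberField.Embeddings.card E ℂ, Module.finrank_linearMap, Module.finrank_self, mul_one,
      finrank_real_of_complex, hdim, mul_comm]
  rcases isEmpty_or_nonempty ((E →+* X.K) × Fin r) with he | he
  · have h0 : Module.finrank ℂ (C.V →ₗ[ℝ] ℂ) = 0 := by
      rw [← hcard, Fintype.card_eq_zero]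
    have hs : Subsingleton (C.V →ₗ[ℝ] ℂ) := Module.finrank_zero_iff.1 h0
    refine ⟨{ b := Module.Basis.empty _, ρ := ρ, lat := ?_, mem := ?_, act := ?_ }, ?_, rfl⟩
    · intro v hv
      obtain ⟨y, hy⟩ := hlat v hv
      exact ⟨y, fun φ i => he.elim (φ, i)⟩
    · intro y
      exact ⟨1, one_ne_zero, 0, C.L.zero_mem, fun φ i => he.elim (φ, i)⟩
    · intro φ i
      exact he.elim (φ, i)
    · intro φ i
      exact he.elim (φ, i)
  · let b := basisOfLinearIndependentOfCardEqFinrank hli hcard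
    have hb : ∀ k, b k = f k := fun k => by
      rw [coe_basisOfLinearIndependentOfCardEqFinrank]
    refine ⟨{ b := b, ρ := ρ, lat := ?_, mem := ?_, act := ?_ }, ?_, rfl⟩
    · intro v hv
      obtain ⟨y, hy⟩ := hlat v hv
      refine ⟨y, fun φ i => ?_⟩
      rw [hb]
      exact hy _ i
    · intro y
      have h4 : ∀ i, ∃ N : ℕ, N ≠ 0 ∧ IsIntegral ℤ ((N : E) * y i) := by
        intro i
        have halg : IsAlgebraic ℤ (y i) :=
          (IsFractionRing.isAlgebraic_iff ℤ ℚ E).mpr (Algebra.IsAlgebraic.isAlgebraic _)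
        obtain ⟨m, hm0, hm⟩ := halg.exists_integral_multiple
        refine ⟨m.natAbs, Int.natAbs_ne_zero.2 hm0, ?_⟩
        rw [zsmul_eq_mul] at hm
        rcases Int.natAbs_eq m with h5 | h5
        · have h6 : ((m.natAbs : ℕ) : E) = (m : E) := by
            conv_rhs => rw [h5]
            exact (Int.cast_natCast _).symm
          rw [h6]
          exact hm
        · have h6 : ((m.natAbs : ℕ) : E) = -(m : E) := by
            conv_rhs => rw [h5]
            rw [Int.cast_neg, neg_neg]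
            exact (Int.cast_natCast _).symm
          rw [h6, neg_mul]
          exact hm.neg
      choose N hN0 hN using h4
      refine ⟨∏ i, N i, Finset.prod_ne_zero_iff.2 fun i _ => hN0 i, ?_⟩
      obtain ⟨v, hv, hvw⟩ := hmem (fun i => ((∏ j, N j : ℕ) : E) * y i) (fun i => by
        rw [← Finset.mul_prod_erase _ _ (Finset.mem_univ i), mul_comm (N i), Nat.cast_mul,
          mul_assoc]
        refine IsIntegral.mul ?_ (hN i)
        exact_mod_cast (isIntegral_algebraMap (R := ℤ) (A := E)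
          (x := ((∏ j ∈ Finset.univ.erase i, N j : ℕ) : ℤ))))
      refine ⟨v, hv, fun φ i => ?_⟩
      rw [hb]
      show w (X.τ.comp φ) i v = _
      rw [hvw, map_mul, map_natCast]
      rfl
    · intro φ i x v
      rw [hb]
      exact hρ _ i x v
    · intro φ i
      rw [hb]

/-! ### The functions `w` and the action of `E` -/

section
variable {E : Type} [Field E] {Φ : Set (E →+* ℂ)} (T : Cm1 E Φ)

/-- The action of `E` on `ℂ^Φ`. -/
def rhoC : E →+* Module.End ℂ T.T.V where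
  toFun x := T.ψ.symm.toLinearMap ∘ₗ
    (LinearMap.pi fun φ : Φ => (φ.1 x) • (LinearMap.proj φ : (Φ → ℂ) →ₗ[ℂ] ℂ)) ∘ₗ T.ψ.toLinearMap
  map_one' := by
    refine LinearMap.ext fun v => T.ψ.injective ?_
    show T.ψ (T.ψ.symm _) = T.ψ v
    rw [LinearEquiv.apply_symm_apply]
    funext φ
    show φ.1 1 * T.ψ v φ = _
    rw [map_one, one_mul]
  map_mul' x y := by
    refine LinearMap.ext fun v => T.ψ.injective ?_
    show T.ψ (T.ψ.symm _) = T.ψ (T.ψ.symm _)
    rw [LinearEquiv.apply_symm_apply, LinearEquiv.apply_symm_apply]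
    funext φ
    show φ.1 (x * y) * T.ψ v φ = φ.1 x * T.ψ (T.ψ.symm _) φ
    rw [LinearEquiv.apply_symm_apply, map_mul, mul_assoc]
    rfl
  map_zero' := by
    refine LinearMap.ext fun v => T.ψ.injective ?_
    show T.ψ (T.ψ.symm _) = T.ψ 0
    rw [LinearEquiv.apply_symm_apply, map_zero]
    funext φ
    show φ.1 0 * T.ψ v φ = _
    rw [map_zero, zero_mul]
    rfl
  map_add' x y := by
    refine LinearMap.ext fun v => T.ψ.injective ?_
    show T.ψ (T.ψ.symm _) = T.ψ (T.ψ.symm _ + T.ψ.symm _)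
    rw [LinearEquiv.apply_symm_apply, map_add, LinearEquiv.apply_symm_apply,
      LinearEquiv.apply_symm_apply]
    funext φ
    show φ.1 (x + y) * T.ψ v φ = φ.1 x * T.ψ v φ + φ.1 y * T.ψ v φ
    rw [map_add, add_mul]

theorem psi_rho (x : E) (v : T.T.V) (φ : Φ) : T.ψ (rhoC T x v) φ = φ.1 x * T.ψ v φ := by
  show T.ψ (T.ψ.symm _) φ = _
  rw [LinearEquiv.apply_symm_apply]
  rfl

theorem w_mem {χ : E →+* ℂ} (h : χ ∈ Φ) (v : T.T.V) : T.w χ v = T.ψ v ⟨χ, h⟩ := by
  rw [Cm1.w, dif_pos h]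
  rfl

theorem w_not (hΦ : IsType Φ) {χ : E →+* ℂ} (h : χ ∉ Φ) (v : T.T.V) :
    T.w χ v = conj (T.ψ v ⟨ComplexEmbedding.conjugate χ, type_not E hΦ h⟩) := by
  rw [Cm1.w, dif_neg h, dif_pos (type_not E hΦ h)]
  rfl

theorem w_rho (hΦ : IsType Φ) (χ : E →+* ℂ) (x : E) (v : T.T.V) :
    T.w χ (rhoC T x v) = χ x * T.w χ v := by
  by_cases h : χ ∈ Φ
  · rw [w_mem T h, w_mem T h, psi_rho]
  · rw [w_not T hΦ h, w_not T hΦ h, psi_rho, map_mul]
    congr 1
    show conj (conj (χ x)) = _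
    rw [Complex.conj_conj]

open Classical in
theorem w_I (hΦ : IsType Φ) (χ : E →+* ℂ) (v : T.T.V) :
    T.w χ (Complex.I • v) = (if χ ∈ Φ then Complex.I else -Complex.I) * T.w χ v := by
  by_cases h : χ ∈ Φ
  · rw [w_mem T h, w_mem T h, if_pos h, map_smul]
    rfl
  · rw [w_not T hΦ h, w_not T hΦ h, if_neg h, map_smul, Pi.smul_apply, smul_eq_mul, map_mul,
      Complex.conj_I]

theorem w_lat (hΦ : IsType Φ) {v : T.T.V} {y : E} (h : ∀ φ : Φ, T.ψ v φ = φ.1 y)
    (χ : E →+* ℂ) : T.w χ v = χ y := by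
  by_cases hχ : χ ∈ Φ
  · rw [w_mem T hχ, h]
  · rw [w_not T hΦ hχ, h]
    show conj (conj (χ y)) = _
    rw [Complex.conj_conj]

theorem w_conj (hΦ : IsType Φ) (χ : E →+* ℂ) (v : T.T.V) :
    T.w (ComplexEmbedding.conjugate χ) v = conj (T.w χ v) := by
  by_cases h : χ ∈ Φ
  · have h2 : ComplexEmbedding.conjugate χ ∉ Φ := (hΦ χ).1 h
    have h3 : (⟨ComplexEmbedding.conjugate (ComplexEmbedding.conjugate χ),
        type_not E hΦ h2⟩ : Φ) = ⟨χ, h⟩ :=
      Subtype.ext (ComplexEmbedding.involutive_conjugate E χ)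
    rw [w_not T hΦ h2, w_mem T h, h3]
  · rw [w_mem T (type_not E hΦ h), w_not T hΦ h, Complex.conj_conj]

theorem cm1_lat (hΦ : IsType Φ) {v : T.T.V} (hv : v ∈ T.T.L) :
    ∃ y : E, IsIntegral ℤ y ∧ ∀ χ, T.w χ v = χ y := by
  obtain ⟨y, hy, h⟩ := (T.lat v).1 hv
  exact ⟨y, hy, w_lat T hΦ h⟩

theorem cm1_mem (hΦ : IsType Φ) (y : E) (hy : IsIntegral ℤ y) :
    ∃ v ∈ T.T.L, ∀ χ, T.w χ v = χ y := by
  refine ⟨T.ψ.symm fun φ => φ.1 y, (T.lat _).2 ⟨y, hy, fun φ => ?_⟩, w_lat T hΦ fun φ => ?_⟩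
  · rw [LinearEquiv.apply_symm_apply]
  · rw [LinearEquiv.apply_symm_apply]

/-- `#Φ = [E : ℚ] / 2`. -/
theorem card_type [NumberField E] (hΦ : IsType Φ) :
    2 * Module.finrank ℂ T.T.V = Module.finrank ℚ E := by
  classical
  rw [T.ψ.finrank_eq, Module.finrank_fintype_fun_eq_card, ← NumberField.Embeddings.card E ℂ]
  have h1 : Fintype.card {χ : E →+* ℂ // ¬ χ ∈ Φ} = Fintype.card Φ := by
    refine Fintype.card_congr
      { toFun := fun χ => ⟨ComplexEmbedding.conjugate χ.1, type_not E hΦ χ.2⟩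
        invFun := fun χ => ⟨ComplexEmbedding.conjugate χ.1, (hΦ χ.1).1 χ.2⟩
        left_inv := fun χ => Subtype.ext (ComplexEmbedding.involutive_conjugate E χ.1)
        right_inv := fun χ => Subtype.ext (ComplexEmbedding.involutive_conjugate E χ.1) }
  have h2 := Fintype.card_subtype_compl (fun χ : E →+* ℂ => χ ∈ Φ)
  have h3 : Fintype.card {χ : E →+* ℂ // χ ∈ Φ} ≤ Fintype.card (E →+* ℂ) :=
    Fintype.card_subtype_le _
  have h4 : Fintype.card {χ : E →+* ℂ // χ ∈ Φ} = Fintype.card Φ :=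
    Fintype.card_congr (Equiv.refl _)
  omega

/-- The coordinates of `ℂ^Φ / Φ(O_E)`. -/
theorem blk1 (X : GF) [NumberField E] (h : Nonempty (E →+* X.K)) (hΦ : IsType Φ) :
    ∃ B : Blk X T.T E 1, (∀ φ i, B.b (φ, i) = T.w (X.τ.comp φ)) ∧ B.ρ = rhoC T := by
  refine mkBlk X E h T.T 1 (fun χ _ => T.w χ) (fun v hv => ?_) (fun y hy => ?_) ?_ (rhoC T)
    (fun χ _ x v => w_rho T hΦ χ x v)
  · obtain ⟨y, -, hy⟩ := cm1_lat T hΦ hv
    exact ⟨fun _ => y, fun χ _ => hy χ⟩
  · obtain ⟨v, hv, hvw⟩ := cm1_mem T hΦ (y 0) (hy 0)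
    refine ⟨v, hv, fun χ i => ?_⟩
    rw [hvw, Subsingleton.elim i 0]
  · rw [card_type T hΦ, one_mul]

end

/-! ### The Riemann form -/

/-- The numbers of the Riemann form. -/
theorem exists_ty {E : Type} [Field E] [NumberField E] [NumberField.IsCMField E]
    (Φ : Set (E →+* ℂ)) (hΦ : IsType Φ) : ∃ y : Φ → ℝ, (∀ s, y s < 0) ∧
      ∀ x x' : E, IsIntegral ℤ x → IsIntegral ℤ x' → ∃ m : ℤ,
        ∑ s : Φ, 2 * (y s * ((s.1 x).re * (s.1 x').im - (s.1 x).im * (s.1 x').re)) = m := by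
  classical
  obtain ⟨ξ, hξi, hξr, hξs⟩ := exists_xi E Φ hΦ
  refine ⟨fun s => (s.1 ξ).im, fun s => hξs s.1 s.2, fun x x' hx hx' => ?_⟩
  have h1 : ∑ s : Φ, 2 * ((s.1 ξ).im * ((s.1 x).re * (s.1 x').im - (s.1 x).im * (s.1 x').re)) =
      ((Algebra.trace ℚ E (ξ * x * IsCMField.complexConj E x') : ℚ) : ℝ) := by
    rw [← sum_type E Φ hΦ]
    refine Finset.sum_congr rfl fun s _ => ?_
    rw [map_mul, map_mul, emb_cconj]
    have hr := hξr s.1
    simp only [Complex.mul_re, Complex.mul_im, Complex.conj_re, Complex.conj_im, hr]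
    ring
  have h3 : IsIntegral ℤ (ξ * x * IsCMField.complexConj E x') :=
    (hξi.mul hx).mul (map_isIntegral_int (IsCMField.complexConj E : E →+* E) hx')
  have h4 : IsIntegral ℤ (Algebra.trace ℚ E (ξ * x * IsCMField.complexConj E x')) :=
    Algebra.isIntegral_trace h3
  obtain ⟨m, hm⟩ := IsIntegrallyClosed.isIntegral_iff.mp h4
  refine ⟨m, ?_⟩
  rw [h1, ← hm]
  simp

end S5
end SE
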