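import Pool.Agent.Lib.SE.Iface
import Pool.Agent.Lib.HC.P.Pol

/-!
# PROJECT SE, G4 (helper12): the abelian varieties `ℂ^Φ / Φ(O_E)` exist (`S_cm1`)

Adapted from HC/C (helper35).
-/

set_option autoImplicit false

open scoped ComplexConjugate
open NumberField

noncomputable section

namespace SE
namespace S5

open HC HC.SE

section
variable (E : Type) [Field E] [NumberField E] (Φ : Set (E →+* ℂ))

instance fintypeEmb : Fintype Φ := Fintype.ofFinite _

/-- The lattice `Φ(O_E)`. -/
def LatE : Submodule ℤ (Φ → ℂ) where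
  carrier := {v | ∃ y : E, IsIntegral ℤ y ∧ ∀ φ : Φ, v φ = φ.1 y}
  zero_mem' := ⟨0, isIntegral_zero, fun φ => by rw [map_zero]; rfl⟩
  add_mem' := by
    rintro u v ⟨x, hx, hu⟩ ⟨y, hy, hv⟩
    refine ⟨x + y, hx.add hy, fun φ => ?_⟩
    rw [Pi.add_apply, map_add, hu, hv]
  smul_mem' := by
    rintro m u ⟨x, hx, hu⟩
    refine ⟨m • x, ?_, fun φ => ?_⟩
    · rw [zsmul_eq_mul]
      exact (isIntegral_algebraMap (R := ℤ) (x := m)).mul hx
    · rw [Pi.smul_apply, map_zsmul, hu]

theorem mem_LatE (v : Φ → ℂ) : v ∈ LatE E Φ ↔ ∃ y : E, IsIntegral ℤ y ∧ ∀ φ : Φ, v φ = φ.1 y :=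
  Iff.rfl

variable {Φ}

omit [NumberField E] in
theorem type_not (h : IsType Φ) {φ : E →+* ℂ} (hφ : φ ∉ Φ) : ComplexEmbedding.conjugate φ ∈ Φ := by
  by_contra h2
  exact hφ ((h φ).2 h2)

/-- Finiteness of the lattice points in a ball. -/
theorem finite_ballE (h : IsType Φ) (r : ℝ) :
    ((LatE E Φ : Set (Φ → ℂ)) ∩ Metric.closedBall 0 r).Finite := by
  have h1 : {x : E | IsIntegral ℤ x ∧ ∀ φ : E →+* ℂ, ‖φ x‖ ≤ r}.Finite :=
    NumberField.Embeddings.finite_of_norm_le E ℂ r
  refine (h1.image fun y => (fun φ => φ.1 y : Φ → ℂ)).subset ?_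
  rintro v ⟨⟨y, hy, hv⟩, hr⟩
  refine ⟨y, ⟨hy, fun φ => ?_⟩, ?_⟩
  · rw [mem_closedBall_zero_iff] at hr
    by_cases hφ : φ ∈ Φ
    · have e : φ y = v ⟨φ, hφ⟩ := (hv ⟨φ, hφ⟩).symm
      rw [e]
      exact (norm_le_pi_norm v _).trans hr
    · have e : ‖φ y‖ = ‖v ⟨_, type_not E h hφ⟩‖ := by
        rw [hv ⟨_, type_not E h hφ⟩]
        show _ = ‖conj (φ y)‖
        rw [RCLike.norm_conj]
      rw [e]
      exact (norm_le_pi_norm v _).trans hr
  · funext φ
    exact (hv φ).symm

theorem discreteTopologyE (h : IsType Φ) : DiscreteTopology (LatE E Φ) := by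
  refine discreteTopology_of_isOpen_singleton_zero ?_
  refine isOpen_singleton_of_finite_mem_nhds 0 (s := Metric.closedBall 0 1) ?_ ?_
  · exact Metric.closedBall_mem_nhds _ (by simp)
  · refine Set.Finite.of_finite_image ?_ (Set.injOn_of_injective Subtype.val_injective)
    refine (finite_ballE E h 1).subset ?_
    rintro _ ⟨x, hx, rfl⟩
    exact ⟨Subtype.mem x, hx⟩

omit [NumberField E] in
/-- Independence of the embeddings. -/
theorem indepE : LinearIndependent ℂ (fun φ : E →+* ℂ => fun x : E => φ x) := by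
  have h := linearIndependent_monoidHom E ℂ
  have h2 : Function.Injective fun φ : E →+* ℂ => ((φ : E →+* ℂ) : E →* ℂ) := by
    intro g g' hg
    ext x
    exact DFunLike.congr_fun hg x
  exact h.comp _ h2

/-- A combination of the embeddings which vanishes on the integers is zero. -/
theorem coef_zeroE (α : (E →+* ℂ) → ℂ)
    (h : ∀ y : E, IsIntegral ℤ y → ∑ φ : E →+* ℂ, α φ * φ y = 0) (φ : E →+* ℂ) : α φ = 0 := by
  refine Fintype.linearIndependent_iff.1 (indepE E) α ?_ φ
  funext x
  rw [Finset.sum_apply, Pi.zero_apply]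
  have halg : IsAlgebraic ℤ x := by
    have : IsAlgebraic ℚ x := Algebra.IsAlgebraic.isAlgebraic x
    exact (IsFractionRing.isAlgebraic_iff ℤ ℚ E).mpr this
  obtain ⟨m, hm0, hm⟩ := halg.exists_integral_multiple
  have h1 := h (m • x) hm
  have h2 : ∀ φ : E →+* ℂ, α φ * φ (m • x) = (m : ℂ) * (α φ * φ x) := by
    intro φ
    rw [map_zsmul, zsmul_eq_mul]
    ring
  rw [Finset.sum_congr rfl fun φ _ => h2 φ, ← Finset.mul_sum] at h1
  rcases mul_eq_zero.1 h1 with h3 | h3
  · exact absurd (Int.cast_eq_zero.1 h3) hm0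
  · exact h3

theorem span_topE (hΦ : IsType Φ) : Submodule.span ℝ (LatE E Φ : Set (Φ → ℂ)) = ⊤ := by
  classical
  by_contra hne
  obtain ⟨l, hl0, hl⟩ := Submodule.exists_le_ker_of_lt_top _ (lt_top_iff_ne_top.2 hne)
  apply hl0
  let a : Φ → ℂ := fun s =>
    ((l (Pi.single s 1) : ℝ) : ℂ) - Complex.I * ((l (Pi.single s Complex.I) : ℝ) : ℂ)
  have hre : ∀ s, (a s).re = l (Pi.single s 1) := fun s => by
    simp [a]
  have him : ∀ s, (a s).im = -l (Pi.single s Complex.I) := fun s => by
    simp [a]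
  have hval : ∀ v : Φ → ℂ, ((l v : ℝ) : ℂ) * 2 = ∑ s, (a s * v s + conj (a s * v s)) := by
    intro v
    have hv : v = ∑ s, ((v s).re • (Pi.single s 1 : Φ → ℂ) +
        (v s).im • (Pi.single s Complex.I : Φ → ℂ)) := by
      funext s
      rw [Finset.sum_apply, Finset.sum_eq_single s]
      · rw [Pi.add_apply, Pi.smul_apply, Pi.smul_apply, Pi.single_eq_same, Pi.single_eq_same,
          Complex.real_smul, Complex.real_smul, mul_one]
        exact (Complex.re_add_im _).symm
      · intro t _ ht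
        rw [Pi.add_apply, Pi.smul_apply, Pi.smul_apply, Pi.single_eq_of_ne ht.symm,
          Pi.single_eq_of_ne ht.symm, smul_zero, smul_zero, add_zero]
      · intro h
        exact absurd (Finset.mem_univ s) h
    have h1 : l v = ∑ s, ((v s).re * (a s).re - (v s).im * (a s).im) := by
      conv_lhs => rw [hv]
      rw [map_sum]
      refine Finset.sum_congr rfl fun s _ => ?_
      rw [map_add, map_smul, map_smul, hre, him, smul_eq_mul, smul_eq_mul]
      ring
    rw [h1, Complex.ofReal_sum, Finset.sum_mul]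
    refine Finset.sum_congr rfl fun s _ => ?_
    rw [Complex.add_conj, Complex.mul_re]
    push_cast
    ring
  have hzero : ∀ s, a s = 0 := by
    rintro ⟨φ0, h0⟩
    let a' : (E →+* ℂ) → ℂ := fun g => if h : g ∈ Φ then a ⟨g, h⟩ else 0
    have ha1 : a' φ0 = a ⟨φ0, h0⟩ := dif_pos h0
    have ha2 : ∀ g, g ∉ Φ → a' g = 0 := fun g hg => dif_neg hg
    have ha3 : ∀ F : (E →+* ℂ) → ℂ, ∑ g, a' g * F g = ∑ s : Φ, a s * F s := by
      intro F
      rw [← Finset.sum_subset (Finset.subset_univ (Finset.univ.filter fun g => g ∈ Φ))]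
      · rw [Finset.sum_subtype (Finset.univ.filter fun g => g ∈ Φ) (p := fun g => g ∈ Φ)
          (by simp)]
        refine Finset.sum_congr rfl fun s _ => ?_
        rw [show a' s.1 = a s from dif_pos s.2]
      · intro g _ hg
        rw [ha2 g (by simpa using hg), zero_mul]
    have hα := coef_zeroE E
      (fun g => a' g + conj (a' (ComplexEmbedding.conjugate g))) (fun y hy => ?_) φ0
    · have hc : ComplexEmbedding.conjugate φ0 ∉ Φ := (hΦ φ0).1 h0
      simp only [ha2 _ hc, map_zero, add_zero] at hα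
      rw [← ha1]
      exact hα
    · let v : Φ → ℂ := fun s => s.1 y
      have hvL : v ∈ LatE E Φ := ⟨y, hy, fun φ => rfl⟩
      have hlv : l v = 0 := hl (Submodule.subset_span hvL)
      have h2 := hval v
      rw [hlv, Complex.ofReal_zero, zero_mul, Finset.sum_add_distrib, ← map_sum] at h2
      have h5 : ∑ g : E →+* ℂ, conj (a' (ComplexEmbedding.conjugate g)) * g y =
          conj (∑ g : E →+* ℂ, a' g * g y) := by
        rw [map_sum]
        refine Fintype.sum_equiv
          (Function.Involutive.toPerm _ (ComplexEmbedding.involutive_conjugate E)) _ _ fun g => ?_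
        rw [map_mul]
        have e : g y = conj ((ComplexEmbedding.conjugate g) y) := by
          show _ = conj (conj (g y))
          rw [Complex.conj_conj]
        rw [e]
        rfl
      have h6 : ∀ g : E →+* ℂ, (a' g + conj (a' (ComplexEmbedding.conjugate g))) * g y =
          a' g * g y + conj (a' (ComplexEmbedding.conjugate g)) * g y := fun g => add_mul _ _ _
      rw [Finset.sum_congr rfl fun g _ => h6 g, Finset.sum_add_distrib, h5,
        ha3 (fun g => g y)]
      exact h2.symm
  have : ∀ v, l v = 0 := by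
    intro v
    have h := hval v
    have h3 : ∑ s, (a s * v s + conj (a s * v s)) = 0 := by
      refine Finset.sum_eq_zero fun s _ => ?_
      rw [hzero s, zero_mul, map_zero, add_zero]
    rw [h3] at h
    have h4 : ((l v : ℝ) : ℂ) = 0 := by
      rcases mul_eq_zero.1 h with h5 | h5
      · exact h5
      · exact absurd h5 two_ne_zero
    exact Complex.ofReal_eq_zero.1 h4
  exact LinearMap.ext this

end

/-- The abelian varieties `ℂ^Φ / Φ(O_E)` exist. -/
theorem cm1 : S_cm1 := by
  intro E _ _ _ Φ hΦ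
  have hd : DiscreteTopology (LatE E Φ) := discreteTopologyE E hΦ
  have hz : IsZLattice ℝ (LatE E Φ) := ⟨span_topE E hΦ⟩
  obtain ⟨R, h1, h2, h3, h4⟩ := exists_pol (K := E) (ι := Unit) (fun _ => Φ) (fun _ φ => φ.1)
    (fun _ => Subtype.val_injective) (fun _ => by
      rw [Subtype.range_val]
      exact hΦ)
  let e : (Φ → ℂ) ≃ₗ[ℂ] (((i : Unit) × Φ) → ℂ) :=
    LinearEquiv.funCongrLeft ℂ ℂ (Equiv.uniqueSigma (fun _ : Unit => Φ))
  let T : AV :=
    { V := Φ → ℂ
      L := LatE E Φ
      disc := hd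
      latt := hz
      pol := by
        refine ⟨(R.compl₁₂ (e.toLinearMap.restrictScalars ℝ) (e.toLinearMap.restrictScalars ℝ)),
          ?_, ?_, ?_, ?_⟩
        · rintro u ⟨y, hy, hu⟩ v ⟨z, hz, hv⟩
          obtain ⟨n, hn⟩ := h1 (fun _ => y) (fun _ => z) (fun _ => hy) (fun _ => hz)
          refine ⟨n, ?_⟩
          rw [← hn]
          show R (e u) (e v) = _
          have e1 : e u = fun s : (i : Unit) × Φ => s.2.1 y := by
            funext s
            exact hu s.2
          have e2 : e v = fun s : (i : Unit) × Φ => s.2.1 z := by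
            funext s
            exact hv s.2
          rw [e1, e2]
        · intro u v
          exact h2 _ _
        · intro u v
          exact h3 _ _
        · intro v hv
          refine h4 (e v) ?_
          intro h
          exact hv (e.map_eq_zero_iff.1 h) }
  exact ⟨{ T := T, ψ := LinearEquiv.refl ℂ (Φ → ℂ), lat := fun v => Iff.rfl }⟩

end S5
end SE
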