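import Pool.Agent.Lib.SE.S5.CmB

/-!
# PROJECT SE, G4 (helper12): the product `C` of the `T_i`, `T_i` a copy of `ℂ^(Φ_i) / Φ_i(O_E)`
-/

set_option autoImplicit false

open scoped ComplexConjugate
open NumberField

noncomputable section

namespace SE
namespace S5

open HC HC.SE

section
variable {X : GF} {E : Type} [Field E] {r : ℕ} {Φ : Fin r → Set (E →+* ℂ)}
  (T : ∀ i, Cm1 E (Φ i)) (P : Prd fun i => (T i).T)

/-- The coordinate `χ` of the factor `i`. -/
def wC (χ : E →+* ℂ) (i : Fin r) : P.Y.V →ₗ[ℝ] ℂ :=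
  pull ((LinearMap.proj i : (∀ k, (T k).T.V) →ₗ[ℂ] (T i).T.V) ∘ₗ P.ψ.toLinearMap) ((T i).w χ)

theorem wC_apply (χ : E →+* ℂ) (i : Fin r) (v : P.Y.V) :
    wC T P χ i v = (T i).w χ (P.ψ v i) := rfl

/-- The action of `E` on the product. -/
def rhoP : E →+* Module.End ℂ P.Y.V where
  toFun x := P.ψ.symm.toLinearMap ∘ₗ
    (LinearMap.pi fun i => (rhoC (T i) x) ∘ₗ (LinearMap.proj i)) ∘ₗ P.ψ.toLinearMap
  map_one' := by
    refine LinearMap.ext fun v => P.ψ.injective ?_
    show P.ψ (P.ψ.symm _) = P.ψ v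
    rw [LinearEquiv.apply_symm_apply]
    funext i
    show rhoC (T i) 1 (P.ψ v i) = _
    rw [map_one]
    rfl
  map_mul' x y := by
    refine LinearMap.ext fun v => P.ψ.injective ?_
    show P.ψ (P.ψ.symm _) = P.ψ (P.ψ.symm _)
    rw [LinearEquiv.apply_symm_apply, LinearEquiv.apply_symm_apply]
    funext i
    show rhoC (T i) (x * y) (P.ψ v i) = rhoC (T i) x (P.ψ (P.ψ.symm _) i)
    rw [LinearEquiv.apply_symm_apply, map_mul]
    rfl
  map_zero' := by
    refine LinearMap.ext fun v => P.ψ.injective ?_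
    show P.ψ (P.ψ.symm _) = P.ψ 0
    rw [LinearEquiv.apply_symm_apply, map_zero]
    funext i
    show rhoC (T i) 0 (P.ψ v i) = _
    rw [map_zero]
    rfl
  map_add' x y := by
    refine LinearMap.ext fun v => P.ψ.injective ?_
    show P.ψ (P.ψ.symm _) = P.ψ (P.ψ.symm _ + P.ψ.symm _)
    rw [LinearEquiv.apply_symm_apply, map_add, LinearEquiv.apply_symm_apply,
      LinearEquiv.apply_symm_apply]
    funext i
    show rhoC (T i) (x + y) (P.ψ v i) = rhoC (T i) x (P.ψ v i) + rhoC (T i) y (P.ψ v i)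
    rw [map_add]
    rfl

theorem psi_rhoP (x : E) (v : P.Y.V) (i : Fin r) :
    P.ψ (rhoP T P x v) i = rhoC (T i) x (P.ψ v i) := by
  show P.ψ (P.ψ.symm _) i = _
  rw [LinearEquiv.apply_symm_apply]
  rfl

variable [NumberField E]

theorem dimC (hΦ : ∀ i, IsType (Φ i)) :
    2 * Module.finrank ℂ P.Y.V = r * Module.finrank ℚ E := by
  rw [P.ψ.finrank_eq, Module.finrank_pi_fintype, Finset.mul_sum]
  rw [Finset.sum_congr rfl fun i _ => card_type (T i) (hΦ i), Finset.sum_const, Finset.card_univ,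
    Fintype.card_fin, smul_eq_mul]

/-- The product is of CM type. -/
theorem isCMC [IsCMField E] (hΦ : ∀ i, IsType (Φ i)) : IsCM P.Y := by
  refine ⟨r, fun _ => E, fun _ => inferInstance, fun _ => inferInstance, fun _ => inferInstance,
    Φ, hΦ,
    { toFun := fun v s => (T s.1).ψ (P.ψ v s.1) s.2
      map_add' := fun u v => by
        funext s
        rw [map_add, Pi.add_apply, map_add]
        rfl
      map_smul' := fun c v => by
        funext s
        rw [map_smul, Pi.smul_apply, map_smul]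
        rfl
      invFun := fun f => P.ψ.symm fun i => (T i).ψ.symm fun φ => f ⟨i, φ⟩
      left_inv := fun v => by
        apply P.ψ.injective
        rw [LinearEquiv.apply_symm_apply]
        funext i
        apply (T i).ψ.injective
        rw [LinearEquiv.apply_symm_apply]
      right_inv := fun f => by
        funext s
        show (T s.1).ψ (P.ψ (P.ψ.symm fun i => (T i).ψ.symm fun φ => f ⟨i, φ⟩) s.1) s.2 = f s
        rw [LinearEquiv.apply_symm_apply, LinearEquiv.apply_symm_apply] }, ?_⟩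
  intro v hv
  have h1 := (P.lat v).1 hv
  have h2 : ∀ i, ∃ y : E, ∀ φ : Φ i, (T i).ψ (P.ψ v i) φ = φ.1 y := by
    intro i
    obtain ⟨y, -, hy⟩ := ((T i).lat _).1 (h1 i)
    exact ⟨y, hy⟩
  choose y hy using h2
  exact ⟨y, fun i φ => hy i φ⟩

open Classical in
/-- **The product as a block.** -/
theorem blkC (X : GF) (h : Nonempty (E →+* X.K)) (hΦ : ∀ i, IsType (Φ i)) :
    ∃ B : Blk X P.Y E r, (∀ φ i, B.b (φ, i) = wC T P (X.τ.comp φ) i) ∧ B.ρ = rhoP T P ∧
      B.Pure ∧ ∀ φ, B.δ φ = ∑ i, if X.τ.comp φ ∈ Φ i then Complex.I else -Complex.I := by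
  have hlat : ∀ v ∈ P.Y.L, ∃ y : Fin r → E, ∀ χ i, wC T P χ i v = χ (y i) := by
    intro v hv
    have h1 := (P.lat v).1 hv
    have h2 : ∀ i, ∃ y : E, ∀ χ, (T i).w χ (P.ψ v i) = χ y := by
      intro i
      obtain ⟨y, -, hy⟩ := cm1_lat (T i) (hΦ i) (h1 i)
      exact ⟨y, hy⟩
    choose y hy using h2
    exact ⟨y, fun χ i => hy i χ⟩
  have hmem : ∀ y : Fin r → E, (∀ i, IsIntegral ℤ (y i)) → ∃ v ∈ P.Y.L,
      ∀ χ i, wC T P χ i v = χ (y i) := by
    intro y hy
    choose v hv hvw using fun i => cm1_mem (T i) (hΦ i) (y i) (hy i)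
    refine ⟨P.ψ.symm v, (P.lat _).2 fun k => ?_, fun χ i => ?_⟩
    · rw [LinearEquiv.apply_symm_apply]
      exact hv k
    · rw [wC_apply, LinearEquiv.apply_symm_apply]
      exact hvw i χ
  have hρ' : ∀ χ i x v, wC T P χ i (rhoP T P x v) = χ x * wC T P χ i v := by
    intro χ i x v
    rw [wC_apply, wC_apply, psi_rhoP, w_rho (T i) (hΦ i)]
  obtain ⟨B, hB, hρ⟩ := mkBlk X E h P.Y r (wC T P) hlat hmem (dimC T P hΦ) (rhoP T P) hρ'
  have hI : ∀ φ i v, B.b (φ, i) (Complex.I • v) =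
      (if X.τ.comp φ ∈ Φ i then Complex.I else -Complex.I) * B.b (φ, i) v := by
    intro φ i v
    rw [hB, wC_apply, wC_apply, map_smul, Pi.smul_apply, w_I (T i) (hΦ i)]
  refine ⟨B, hB, hρ, fun φ i => ⟨_, ?_, fun v => hI φ i v⟩, fun φ => ?_⟩
  · split_ifs
    · exact Or.inl rfl
    · exact Or.inr rfl
  · refine Finset.sum_congr rfl fun i _ => ?_
    have h1 : (B.b (φ, i) ∘ₗ mulI P.Y) =
        (if X.τ.comp φ ∈ Φ i then Complex.I else -Complex.I) • B.b (φ, i) := by
      refine LinearMap.ext fun v => ?_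
      exact hI φ i v
    rw [h1, map_smul, Module.Basis.coord_apply, Module.Basis.repr_self, Finsupp.single_eq_same,
      smul_eq_mul, mul_one]

end

end S5
end SE
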