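import Pool.Agent.Lib.HC.D.Main
import Pool.Agent.Lib.HC.E.Gal

/-!
# PROJECT SE, part S5: from one embedding to all embeddings (helper59)

`E` a number field; a family `w φ`, `φ : E → ℂ`, of homology classes of `T` such that for rational
1-forms `a_1, …, a_m` there is `α ∈ E` with `w φ a = φ α` for all `φ`.  If `A` is a linear space of
classes with the property (rat): `∑ μ_k w_k ∈ A`, `w_k` rational, `μ_k ∈ ℂ` linearly independent
over `ℚ`, implies `w_k ∈ A`, then `w φ₀ ∈ A` for one `φ₀` implies `w φ ∈ A` for all `φ`.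
-/

set_option autoImplicit false

noncomputable section

namespace SE
namespace S5

open HC

/-- The 1-form `a` is rational. -/
def RatF (T : AV) (a : T.V →ₗ[ℝ] ℂ) : Prop := ∀ v ∈ T.L, ∃ x : ℚ, a v = x

/-- The class `c` is rational. -/
def RatC (T : AV) {m : ℕ} (c : Hlg T m) : Prop :=
  ∀ a : Fin m → (T.V →ₗ[ℝ] ℂ), (∀ i, RatF T (a i)) → ∃ x : ℚ, c a = x

/-- The property (rat) of a linear space of classes. -/
def RatP {T : AV} {m : ℕ} (A : Submodule ℂ (Hlg T m)) : Prop :=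
  ∀ (n : ℕ) (μ : Fin n → ℂ), LinearIndependent ℚ μ → ∀ w : Fin n → Hlg T m,
    (∀ k, RatC T (w k)) → ∑ k, μ k • w k ∈ A → ∀ k, w k ∈ A

variable {E : Type} [Field E] [NumberField E]

/-- The vector `x φ` of `H_1(T, ℂ)` depends on the embedding `φ` in a Galois equivariant way. -/
def Eqv (E : Type) [Field E] [NumberField E] (T : AV)
    (x : (E →+* ℂ) → ((T.V →ₗ[ℝ] ℂ) →ₗ[ℂ] ℂ)) : Prop :=
  ∀ a : T.V →ₗ[ℝ] ℂ, RatF T a → ∃ α : E, ∀ φ : E →+* ℂ, x φ a = φ α

/-- **From one embedding to all embeddings.** -/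
theorem rat_all {T : AV} {m : ℕ} (A : Submodule ℂ (Hlg T m)) (hA : RatP A)
    (w : (E →+* ℂ) → Hlg T m)
    (hw : ∀ a : Fin m → (T.V →ₗ[ℝ] ℂ), (∀ i, RatF T (a i)) → ∃ α : E, ∀ φ : E →+* ℂ, w φ a = φ α)
    (φ₀ : E →+* ℂ) (h0 : w φ₀ ∈ A) (φ : E →+* ℂ) : w φ ∈ A := by
  classical
  set b := Module.finBasis ℚ E with hb
  set W : Fin (Module.finrank ℚ E) → Hlg T m := fun k => ∑ ψ : E →+* ℂ, ψ (b.traceDual k) • w ψ
    with hW
  have h1 : ∀ ψ : E →+* ℂ, ∑ k, ψ (b k) • W k = w ψ := by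
    intro ψ
    have h2 : ∑ k, ψ (b k) • W k =
        ∑ χ : E →+* ℂ, (∑ k, ψ (b k) * χ (b.traceDual k)) • w χ := by
      simp only [hW, Finset.smul_sum, Finset.sum_smul, smul_smul]
      exact Finset.sum_comm
    rw [h2, Finset.sum_eq_single ψ]
    · rw [HC.E.dual_sum b ψ ψ, if_pos rfl, one_smul]
    · intro χ _ hχ
      rw [HC.E.dual_sum b ψ χ, if_neg hχ, zero_smul]
    · intro h
      exact absurd (Finset.mem_univ ψ) h
  have hrat : ∀ k, RatC T (W k) := by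
    intro k a ha
    obtain ⟨α, hα⟩ := hw a ha
    refine ⟨Algebra.trace ℚ E (b.traceDual k * α), ?_⟩
    rw [HC.E.trace_emb, hW, hlg_sum_apply]
    refine Finset.sum_congr rfl fun ψ _ => ?_
    rw [AlternatingMap.smul_apply, hα, smul_eq_mul, map_mul]
  have hli : LinearIndependent ℚ fun k => φ₀ (b k) := by
    have h3 := b.linearIndependent.map' φ₀.toRatAlgHom.toLinearMap
      (LinearMap.ker_eq_bot.2 φ₀.toRatAlgHom.toRingHom.injective)
    exact h3
  have h4 := hA _ (fun k => φ₀ (b k)) hli W hrat (by rw [h1]; exact h0)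
  rw [← h1 φ]
  exact A.sum_mem fun k _ => A.smul_mem _ (h4 k)

/-- The same for wedge products of equivariant vectors. -/
theorem rat_wdg {T : AV} {m : ℕ} (A : Submodule ℂ (Hlg T m)) (hA : RatP A)
    (x : Fin m → (E →+* ℂ) → ((T.V →ₗ[ℝ] ℂ) →ₗ[ℂ] ℂ)) (hx : ∀ j, Eqv E T (x j))
    (φ₀ : E →+* ℂ) (h0 : wdg (fun j => x j φ₀) ∈ A) (φ : E →+* ℂ) : wdg (fun j => x j φ) ∈ A := by
  refine rat_all A hA (fun φ => wdg fun j => x j φ) ?_ φ₀ h0 φ
  intro a ha
  have h1 : ∀ j i, ∃ α : E, ∀ φ : E →+* ℂ, x j φ (a i) = φ α := fun j i => hx j (a i) (ha i)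
  choose α hα using h1
  refine ⟨Matrix.det (Matrix.of fun j i => α j i), fun φ => ?_⟩
  rw [RingHom.map_det, D.wdg_eq, wd_apply]
  congr 1
  ext j i
  exact hα j i φ

end S5
end SE
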