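import Pool.Agent.Lib.SE.W.Defs
import Pool.Agent.Lib.SE.S5.Rat
import Pool.Agent.Lib.HC.L.Kb

/-!
# PROJECT SE, part S5: lemmas on abelian varieties with multiplication by `E` (helper59)

* `blk_eqv`: the dual basis of `B.b` is Galois equivariant on rational 1-forms.
* `lift_emb`: every embedding of `E` in `ℂ` comes from a label.
* `exists_theta`: a generator of `E` which acts on the lattices.
-/

set_option autoImplicit false

noncomputable section

namespace SE
namespace S5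

open HC

variable {X : GF} {T : AV} {E : Type} [Field E] [NumberField E] {r : ℕ}

/-- The dual basis is Galois equivariant. -/
theorem blk_eqv (B : Blk X T E r) (i : Fin r) (a : T.V →ₗ[ℝ] ℂ) (ha : RatF T a) :
    ∃ α : E, ∀ φ : E →+* X.K, B.b.coord (φ, i) a = X.τ (φ α) := by
  classical
  set e := Module.finBasis ℚ E with he
  have h1 : ∀ k, ∃ q : ℚ, ∑ φ : E →+* X.K, B.b.coord (φ, i) a * X.τ (φ (e k)) = q := by
    intro k
    obtain ⟨N, hN, v, hv, hb⟩ := B.mem (Pi.single i (e k))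
    obtain ⟨q, hq⟩ := ha v hv
    refine ⟨q / N, ?_⟩
    have h2 : a v = ∑ φ : E →+* X.K, ∑ j : Fin r,
        B.b.coord (φ, j) a * ((N : ℂ) * X.τ (φ ((Pi.single i (e k) : Fin r → E) j))) := by
      have h3 : a = ∑ s : (E →+* X.K) × Fin r, B.b.coord s a • B.b s := (B.b.sum_repr a).symm
      conv_lhs => rw [h3]
      rw [LinearMap.sum_apply, Fintype.sum_prod_type]
      refine Finset.sum_congr rfl fun φ _ => Finset.sum_congr rfl fun j _ => ?_
      rw [LinearMap.smul_apply, hb, smul_eq_mul]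
    have h4 : a v = N * ∑ φ : E →+* X.K, B.b.coord (φ, i) a * X.τ (φ (e k)) := by
      rw [h2, Finset.mul_sum]
      refine Finset.sum_congr rfl fun φ _ => ?_
      rw [Finset.sum_eq_single i]
      · rw [Pi.single_eq_same]
        ring
      · intro j _ hj
        rw [Pi.single_eq_of_ne hj, map_zero, map_zero, mul_zero, mul_zero]
      · intro h
        exact absurd (Finset.mem_univ i) h
    have hN' : (N : ℂ) ≠ 0 := by exact_mod_cast hN
    rw [hq] at h4
    push_cast
    rw [eq_div_iff hN', mul_comm]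
    exact h4.symm
  choose q hq using h1
  refine ⟨∑ k, q k • e.traceDual k, fun ψ => ?_⟩
  have h5 : ∀ φ : E →+* X.K, ∑ k, X.τ (φ (e k)) * X.τ (ψ (e.traceDual k)) =
      if φ = ψ then 1 else 0 := by
    intro φ
    have h6 := HC.E.dual_sum e (X.τ.comp φ) (X.τ.comp ψ)
    have h7 : (X.τ.comp ψ = X.τ.comp φ) ↔ φ = ψ := by
      constructor
      · intro h
        refine RingHom.ext fun x => X.τ.injective ?_
        exact (RingHom.congr_fun h x).symm
      · rintro rfl
        rfl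
    rw [← if_congr h7 rfl rfl]
    exact h6
  calc B.b.coord (ψ, i) a = ∑ φ : E →+* X.K, B.b.coord (φ, i) a * (if φ = ψ then 1 else 0) := by
        rw [Finset.sum_eq_single ψ]
        · rw [if_pos rfl, mul_one]
        · intro φ _ hφ
          rw [if_neg hφ, mul_zero]
        · intro h
          exact absurd (Finset.mem_univ ψ) h
    _ = ∑ k, (∑ φ : E →+* X.K, B.b.coord (φ, i) a * X.τ (φ (e k))) * X.τ (ψ (e.traceDual k)) := by
        simp only [← h5, Finset.mul_sum, Finset.sum_mul]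
        rw [Finset.sum_comm]
        refine Finset.sum_congr rfl fun k _ => Finset.sum_congr rfl fun φ _ => ?_
        ring
    _ = X.τ (ψ (∑ k, q k • e.traceDual k)) := by
        rw [map_sum, map_sum]
        refine Finset.sum_congr rfl fun k _ => ?_
        rw [hq, Rat.smul_def, map_mul, map_mul, map_ratCast, map_ratCast]

/-- Every embedding of `E` in `ℂ` comes from a label. -/
theorem lift_emb (φ₀ : E →+* X.K) (ψ : E →+* ℂ) : ∃ φ : E →+* X.K, X.τ.comp φ = ψ := by
  let iK : Algebra E X.K := φ₀.toAlgebra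
  let iC : Algebra E ℂ := ψ.toAlgebra
  have : Algebra.IsAlgebraic ℚ X.K := inferInstance
  have : IsScalarTower ℚ E X.K := inferInstance
  have : Algebra.IsAlgebraic E X.K := Algebra.IsAlgebraic.tower_top (K := ℚ) E
  let Ψ : X.K →ₐ[E] ℂ := IsAlgClosed.lift
  let iT : Algebra X.K ℂ := X.τ.toAlgebra
  let Ψ' : X.K →ₐ[ℚ] ℂ := Ψ.toRingHom.toRatAlgHom
  let g : X.K ≃ₐ[ℚ] X.K := Normal.algHomEquivAut ℚ ℂ X.K Ψ'
  have hg : ∀ x, X.τ (g x) = Ψ x := by
    intro x
    have h := AlgHom.congr_fun ((Normal.algHomEquivAut ℚ ℂ X.K).symm_apply_apply Ψ') x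
    exact h
  refine ⟨gl g φ₀, RingHom.ext fun x => ?_⟩
  show X.τ (g (φ₀ x)) = ψ x
  rw [hg]
  exact Ψ.commutes x

/-- The coordinates separate the points. -/
theorem blk_inj (B : Blk X T E r) {u v : T.V} (h : ∀ φ i, B.b (φ, i) u = B.b (φ, i) v) : u = v := by
  classical
  have h1 : ∀ a : T.V →ₗ[ℝ] ℂ, a u = a v := by
    intro a
    have h3 : a = ∑ s : (E →+* X.K) × Fin r, B.b.coord s a • B.b s := (B.b.sum_repr a).symm
    rw [h3, LinearMap.sum_apply, LinearMap.sum_apply]
    refine Finset.sum_congr rfl fun s _ => ?_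
    rw [LinearMap.smul_apply, LinearMap.smul_apply, ← Prod.mk.eta (p := s), h]
  rw [← sub_eq_zero]
  refine (Module.forall_dual_apply_eq_zero_iff ℝ (u - v)).1 fun f => ?_
  have h2 := h1 (Algebra.linearMap ℝ ℂ ∘ₗ f)
  have h3 : ((f u : ℝ) : ℂ) = (f v : ℝ) := h2
  rw [map_sub, sub_eq_zero]
  exact_mod_cast h3

/-- Some multiple of an element of `E` acts on the lattice. -/
theorem exists_mul (B : Blk X T E r) (x : E) :
    ∃ N : ℕ, N ≠ 0 ∧ ∀ v ∈ T.L, B.ρ ((N : E) * x) v ∈ T.L := by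
  classical
  have h1 : ∀ l : Fund.Ix T, ∃ N : ℕ, N ≠ 0 ∧
      (N : ℂ) • B.ρ x ((Fund.bZ T l : T.L) : T.V) ∈ T.L := by
    intro l
    obtain ⟨y, hy⟩ := B.lat _ (Fund.bZ T l).2
    obtain ⟨N, hN, v, hv, hb⟩ := B.mem fun i => x * y i
    refine ⟨N, hN, ?_⟩
    have h2 : v = (N : ℂ) • B.ρ x ((Fund.bZ T l : T.L) : T.V) := by
      refine blk_inj B fun φ i => ?_
      have h3 : (N : ℂ) • B.ρ x ((Fund.bZ T l : T.L) : T.V) =
          N • B.ρ x ((Fund.bZ T l : T.L) : T.V) := by
        rw [Nat.cast_smul_eq_nsmul]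
      rw [hb, h3, map_nsmul, B.act, hy, nsmul_eq_mul, map_mul, map_mul]
    rw [← h2]
    exact hv
  choose N hN hNm using h1
  refine ⟨∏ l, N l, Finset.prod_ne_zero_iff.2 fun l _ => hN l, ?_⟩
  have h4 : ∀ v : T.V, B.ρ (((∏ l, N l : ℕ) : E) * x) v = (((∏ l, N l : ℕ) : ℂ)) • B.ρ x v := by
    intro v
    rw [map_mul, map_natCast]
    show (((∏ l, N l : ℕ) : Module.End ℂ T.V)) (B.ρ x v) = _
    rw [Module.End.natCast_apply, Nat.cast_smul_eq_nsmul]
  have h5 : ∀ l, (((∏ l, N l : ℕ) : ℂ)) • B.ρ x ((Fund.bZ T l : T.L) : T.V) ∈ T.L := by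
    intro l
    have h6 : ((∏ l, N l : ℕ) : ℂ) = ((∏ k ∈ Finset.univ.erase l, N k : ℕ) : ℂ) * (N l : ℂ) := by
      rw [← Finset.prod_erase_mul _ _ (Finset.mem_univ l)]
      push_cast
      rfl
    rw [h6, mul_smul, Nat.cast_smul_eq_nsmul]
    exact T.L.nsmul_mem (hNm l) _
  intro v hv
  rw [h4]
  have h7 : (⟨v, hv⟩ : T.L) ∈ Submodule.span ℤ (Set.range (Fund.bZ T)) := by
    rw [(Fund.bZ T).span_eq]
    exact Submodule.mem_top
  have h8 : ∀ w : T.L, w ∈ Submodule.span ℤ (Set.range (Fund.bZ T)) →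
      (((∏ l, N l : ℕ) : ℂ)) • B.ρ x (w : T.V) ∈ T.L := by
    intro w hw
    induction hw using Submodule.span_induction with
    | mem w hw =>
      obtain ⟨l, rfl⟩ := hw
      exact h5 l
    | zero =>
      rw [ZeroMemClass.coe_zero, map_zero, smul_zero]
      exact T.L.zero_mem
    | add w w' _ _ h h' =>
      rw [Submodule.coe_add, map_add, smul_add]
      exact T.L.add_mem h h'
    | smul n w _ h =>
      rw [Submodule.coe_smul, map_zsmul, smul_comm]
      exact T.L.smul_mem n h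
  exact h8 _ h7

/-- A generator of `E` which acts on the lattices of `T` and `C`. -/
theorem exists_theta {C : AV} (B : Blk X T E r) (BC : Blk X C E r) :
    ∃ θ : E, (∀ φ φ' : E →+* X.K, φ θ = φ' θ → φ = φ') ∧ (∀ v ∈ T.L, B.ρ θ v ∈ T.L) ∧
      ∀ v ∈ C.L, BC.ρ θ v ∈ C.L := by
  obtain ⟨α, hα⟩ := Field.exists_primitive_element ℚ E
  obtain ⟨N, hN, h1⟩ := exists_mul B α
  obtain ⟨N', hN', h2⟩ := exists_mul BC α
  refine ⟨(N : E) * ((N' : E) * α), ?_, ?_, ?_⟩
  · intro φ φ' h
    have h3 : φ α = φ' α := by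
      rw [map_mul, map_mul, map_mul, map_mul, map_natCast, map_natCast, map_natCast,
        map_natCast] at h
      have h4 : ((N : X.K)) ≠ 0 := by exact_mod_cast hN
      have h5 : ((N' : X.K)) ≠ 0 := by exact_mod_cast hN'
      exact mul_left_cancel₀ h5 (mul_left_cancel₀ h4 h)
    have h6 : (X.τ.comp φ).toRatAlgHom = (X.τ.comp φ').toRatAlgHom :=
      (Field.primitive_element_iff_algHom_eq_of_eval' ℚ ℂ (fun x => IsAlgClosed.splits _) α).1 hα
        (congrArg X.τ h3)
    exact RingHom.ext fun y => X.τ.injective (AlgHom.congr_fun h6 y)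
  · intro v hv
    have h3 : B.ρ ((N : E) * ((N' : E) * α)) v = N' • B.ρ ((N : E) * α) v := by
      have h4 : (N : E) * ((N' : E) * α) = (N' : E) * ((N : E) * α) := by ring
      rw [h4, map_mul B.ρ (N' : E), map_natCast]
      rfl
    rw [h3]
    exact T.L.nsmul_mem (h1 v hv) _
  · intro v hv
    have h3 : BC.ρ ((N : E) * ((N' : E) * α)) v = N • BC.ρ ((N' : E) * α) v := by
      rw [map_mul BC.ρ (N : E), map_natCast]
      rfl
    rw [h3]
    exact C.L.nsmul_mem (h2 v hv) _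

end S5
end SE
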