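import Pool.Agent.Lib.SE.S5.Blk
import Pool.Agent.Lib.SE.S5.Iso

/-!
# PROJECT SE, part S5: the determinant classes (helper59)

`B`, `BC` multiplications by `E` of rank `r` on `T` and `C`, `c` a class in `Q` of degree `2 r` on
`T × C` with nonzero value on the forms `B.b (φ, i)`, `BC.b (c φ, i)`, `i < r`: the class
`det_φ(T) × det_(c φ)(C)` is in `Q`. With (rat) the same for all labels.
-/

set_option autoImplicit false

noncomputable section

namespace SE
namespace S5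

open HC

/-- The property (rat). -/
def RatQ (Q : (T : AV) → (m : ℕ) → Hlg T m → Prop) : Prop :=
  ∀ (T : AV) (m n : ℕ) (μ : Fin n → ℂ), LinearIndependent ℚ μ → ∀ w : Fin n → Hlg T m,
    (∀ k, RatC T (w k)) → Q T m (∑ k, μ k • w k) → ∀ k, Q T m (w k)

theorem append_map {α β : Type*} {m n : ℕ} (f : α → β) (a : Fin m → α) (b : Fin n → α) :
    (fun j => f (Fin.append a b j)) = Fin.append (fun i => f (a i)) fun i => f (b i) := by
  funext j
  refine Fin.addCases (fun i => ?_) (fun i => ?_) j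
  · rw [Fin.append_left, Fin.append_left]
  · rw [Fin.append_right, Fin.append_right]

/-- The classes in `Q` form a linear space. -/
def sub {Q : (T : AV) → (m : ℕ) → Hlg T m → Prop} (hQ : Cl Q) (T : AV) (m : ℕ) :
    Submodule ℂ (Hlg T m) where
  carrier := {c | Q T m c}
  add_mem' := hQ.add
  zero_mem' := hQ.base Alg.zero
  smul_mem' x _ h := hQ.smul x h

variable {X : GF} {T C : AV} {E : Type} [Field E] [NumberField E] {r : ℕ}

/-- The vectors of the determinant class. -/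
def vec (B : Blk X T E r) (BC : Blk X C E r) (P : Pd T C) (φ : E →+* X.K) :
    Fin (r + r) → ((P.T.V →ₗ[ℝ] ℂ) →ₗ[ℂ] ℂ) :=
  Fin.append (fun i => B.b.coord (φ, i) ∘ₗ pull P.iA)
    fun i => BC.b.coord (gl X.c φ, i) ∘ₗ pull P.iB

theorem vec_left (B : Blk X T E r) (BC : Blk X C E r) (P : Pd T C) (φ : E →+* X.K) (i : Fin r) :
    vec B BC P φ (Fin.castAdd r i) = B.b.coord (φ, i) ∘ₗ pull P.iA := Fin.append_left _ _ _

theorem vec_right (B : Blk X T E r) (BC : Blk X C E r) (P : Pd T C) (φ : E →+* X.K) (i : Fin r) :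
    vec B BC P φ (Fin.natAdd r i) = BC.b.coord (gl X.c φ, i) ∘ₗ pull P.iB :=
  Fin.append_right _ _ _

/-- The class as a Pontryagin product. -/
theorem wdg_vec (B : Blk X T E r) (BC : Blk X C E r) (P : Pd T C) (φ : E →+* X.K)
    (i₁ : T.V →ₗ[ℂ] P.T.V) (i₂ : C.V →ₗ[ℂ] P.T.V) (h₁ : ∀ v, P.ψ (i₁ v) = (v, 0))
    (h₂ : ∀ v, P.ψ (i₂ v) = (0, v)) :
    HC.pont (HC.push i₁ (wdg fun i => B.b.coord (φ, i)))
      (HC.push i₂ (wdg fun i => BC.b.coord (gl X.c φ, i))) = wdg (vec B BC P φ) := by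
  have e₁ : i₁ = P.iA := by
    refine LinearMap.ext fun v => P.ψ.injective ?_
    rw [h₁, P.psi_iA]
  have e₂ : i₂ = P.iB := by
    refine LinearMap.ext fun v => P.ψ.injective ?_
    rw [h₂, P.psi_iB]
  rw [e₁, e₂, D.wdg_eq, D.wdg_eq, D.wdg_eq, push_wd, push_wd, pont_wd]
  rfl

/-- The endomorphisms used for the isolation. -/
def FF (B : Blk X T E r) (BC : Blk X C E r) (P : Pd T C) (θ : E) (a : Bool) (n : ℤ) :
    P.T.V →ₗ[ℂ] P.T.V :=
  P.ψ.symm.toLinearMap ∘ₗ (LinearMap.prodMap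
    (if a then (n : ℂ) • LinearMap.id + B.ρ θ else LinearMap.id)
    (if a then LinearMap.id else (n : ℂ) • LinearMap.id + BC.ρ θ)) ∘ₗ P.ψ.toLinearMap

theorem FF_psi (B : Blk X T E r) (BC : Blk X C E r) (P : Pd T C) (θ : E) (a : Bool) (n : ℤ)
    (v : P.T.V) : P.ψ (FF B BC P θ a n v) =
      (if a then (n : ℂ) • (P.ψ v).1 + B.ρ θ (P.ψ v).1 else (P.ψ v).1,
        if a then (P.ψ v).2 else (n : ℂ) • (P.ψ v).2 + BC.ρ θ (P.ψ v).2) := by
  unfold FF
  rw [LinearMap.comp_apply, LinearEquiv.coe_coe, LinearEquiv.apply_symm_apply]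
  cases a <;> rfl

theorem FF_mem (B : Blk X T E r) (BC : Blk X C E r) (P : Pd T C) (θ : E)
    (h1 : ∀ v ∈ T.L, B.ρ θ v ∈ T.L) (h2 : ∀ v ∈ C.L, BC.ρ θ v ∈ C.L) (a : Bool) (n : ℤ)
    (v : P.T.V) (hv : v ∈ P.T.L) : FF B BC P θ a n v ∈ P.T.L := by
  rw [P.lat, FF_psi]
  obtain ⟨hv1, hv2⟩ := (P.lat v).1 hv
  cases a
  · refine ⟨hv1, ?_⟩
    simp only [Bool.false_eq_true, if_false]
    rw [Int.cast_smul_eq_zsmul]
    exact C.L.add_mem (C.L.smul_mem n hv2) (h2 _ hv2)
  · refine ⟨?_, hv2⟩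
    simp only [if_true]
    rw [Int.cast_smul_eq_zsmul]
    exact T.L.add_mem (T.L.smul_mem n hv1) (h1 _ hv1)

theorem blk_add (B : Blk X T E r) (θ : E) (n : ℤ) (s : (E →+* X.K) × Fin r) (u : T.V) :
    B.b s ((n : ℂ) • u + B.ρ θ u) = ((n : ℂ) + X.τ (s.1 θ)) * B.b s u := by
  rw [map_add, Int.cast_smul_eq_zsmul, map_zsmul, ← Prod.mk.eta (p := s), B.act, zsmul_eq_mul]
  ring

/-- **Isolation of the determinant class.** -/
theorem isol {Q : (T : AV) → (m : ℕ) → Hlg T m → Prop} (hQ : Cl Q) (B : Blk X T E r)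
    (BC : Blk X C E r) (P : Pd T C) (φ : E →+* X.K) (c : Hlg P.T (r + r)) (hc : Q P.T (r + r) c)
    (hne : c (Fin.append (fun i => pull P.pA (B.b (φ, i)))
      fun i => pull P.pB (BC.b (gl X.c φ, i))) ≠ 0) :
    Q P.T (r + r) (wdg (vec B BC P φ)) := by
  classical
  obtain ⟨θ, h0, h1, h2⟩ := exists_theta B BC
  have key := iso_gen (Sum.elim (fun _ => true) fun _ => false)
    (Sum.elim (fun s => X.τ (s.1 θ)) fun s => X.τ (s.1 θ)) (P.bas B.b BC.b) (FF B BC P θ) ?_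
    (sub hQ P.T (r + r)) (fun a n c hc => hQ.push _ (FF_mem B BC P θ h1 h2 a n) hc)
    (Fin.append (fun i => Sum.inl (φ, i)) fun i => Sum.inr (gl X.c φ, i)) ?_ c hc ?_
  · have e : (fun j => (P.bas B.b BC.b).coord
        ((Fin.append (fun i => Sum.inl (φ, i)) fun i => Sum.inr (gl X.c φ, i)) j)) =
        vec B BC P φ := by
      rw [append_map (P.bas B.b BC.b).coord]
      exact congrArg₂ Fin.append (funext fun i => P.coord_inl B.b BC.b (φ, i))
        (funext fun i => P.coord_inr B.b BC.b (gl X.c φ, i))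
    rw [e] at key
    exact key
  · intro a n k
    rcases k with s | s
    · rw [P.bas_inl]
      refine LinearMap.ext fun v => ?_
      show B.b s (P.ψ (FF B BC P θ a n v)).1 = _ * B.b s (P.ψ v).1
      rw [FF_psi]
      cases a
      · simp
      · simp only [if_true, Sum.elim_inl]
        exact blk_add B θ n s _
    · rw [P.bas_inr]
      refine LinearMap.ext fun v => ?_
      show BC.b s (P.ψ (FF B BC P θ a n v)).2 = _ * BC.b s (P.ψ v).2
      rw [FF_psi]
      cases a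
      · simp only [Bool.false_eq_true, if_false, if_true, Sum.elim_inr]
        exact blk_add BC θ n s _
      · simp
  · intro k j hk hl
    revert hk hl
    refine Fin.addCases (fun i => ?_) (fun i => ?_) j
    · rw [Fin.append_left]
      intro hk hl
      rcases k with s | s
      · have h3 : s.1 = φ := h0 _ _ (X.τ.injective hl)
        refine ⟨Fin.castAdd r s.2, ?_⟩
        rw [Fin.append_left, ← h3]
      · exact absurd hk (by simp)
    · rw [Fin.append_right]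
      intro hk hl
      rcases k with s | s
      · exact absurd hk (by simp)
      · have h3 : s.1 = gl X.c φ := h0 _ _ (X.τ.injective hl)
        refine ⟨Fin.natAdd r s.2, ?_⟩
        rw [Fin.append_right, ← h3]
  · have e : (fun j => (P.bas B.b BC.b)
        ((Fin.append (fun i => Sum.inl (φ, i)) fun i => Sum.inr (gl X.c φ, i)) j)) =
        Fin.append (fun i => pull P.pA (B.b (φ, i))) fun i => pull P.pB (BC.b (gl X.c φ, i)) := by
      rw [append_map (P.bas B.b BC.b)]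
      exact congrArg₂ Fin.append (funext fun i => P.bas_inl B.b BC.b (φ, i))
        (funext fun i => P.bas_inr B.b BC.b (gl X.c φ, i))
    rw [e]
    exact hne

/-- Another copy of the product. -/
theorem transp {Q : (T : AV) → (m : ℕ) → Hlg T m → Prop} (hQ : Cl Q) (B : Blk X T E r)
    (BC : Blk X C E r) (P P' : Pd T C) (φ : E →+* X.K)
    (h : Q P.T (r + r) (wdg (vec B BC P φ))) : Q P'.T (r + r) (wdg (vec B BC P' φ)) := by
  let f : P.T.V →ₗ[ℂ] P'.T.V := P'.ψ.symm.toLinearMap ∘ₗ P.ψ.toLinearMap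
  have hf : ∀ v, P'.ψ (f v) = P.ψ v := fun v => P'.ψ.apply_symm_apply _
  have h1 := hQ.push f (fun v hv => by
    rw [P'.lat, hf]
    exact (P.lat v).1 hv) h
  have e : HC.push (T' := P'.T) f (wdg (vec B BC P φ)) = wdg (vec B BC P' φ) := by
    rw [D.wdg_eq, D.wdg_eq, push_wd]
    congr 1
    unfold vec
    rw [append_map (fun x : (P.T.V →ₗ[ℝ] ℂ) →ₗ[ℂ] ℂ => x ∘ₗ pull f)]
    refine congrArg₂ Fin.append (funext fun i => ?_) (funext fun i => ?_)
    · refine LinearMap.ext fun a => ?_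
      show B.b.coord (φ, i) (pull P.iA (pull f a)) = B.b.coord (φ, i) (pull P'.iA a)
      congr 1
      refine LinearMap.ext fun v => ?_
      show a (f (P.iA v)) = a (P'.iA v)
      congr 1
      apply P'.ψ.injective
      rw [hf, P.psi_iA, P'.psi_iA]
    · refine LinearMap.ext fun a => ?_
      show BC.b.coord (gl X.c φ, i) (pull P.iB (pull f a)) =
        BC.b.coord (gl X.c φ, i) (pull P'.iB a)
      congr 1
      refine LinearMap.ext fun v => ?_
      show a (f (P.iB v)) = a (P'.iB v)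
      congr 1
      apply P'.ψ.injective
      rw [hf, P.psi_iB, P'.psi_iB]
  rw [e] at h1
  exact h1

/-- **From one label to all labels.** -/
theorem all_of_one {Q : (T : AV) → (m : ℕ) → Hlg T m → Prop} (hQ : Cl Q) (hr : RatQ Q)
    (B : Blk X T E r) (BC : Blk X C E r) (P : Pd T C) (inv : E → E)
    (hinv : ∀ (φ : E →+* X.K) (x : E), φ (inv x) = X.c (φ x)) (φ₀ : E →+* X.K)
    (h : Q P.T (r + r) (wdg (vec B BC P φ₀))) (φ : E →+* X.K) :
    Q P.T (r + r) (wdg (vec B BC P φ)) := by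
  have hl := fun ψ : E →+* ℂ => lift_emb φ₀ ψ
  choose l hl using hl
  have hl' : ∀ φ : E →+* X.K, l (X.τ.comp φ) = φ := by
    intro φ
    refine RingHom.ext fun x => X.τ.injective ?_
    exact RingHom.congr_fun (hl (X.τ.comp φ)) x
  have key := rat_wdg (E := E) (sub hQ P.T (r + r)) (fun n μ hμ w hw hs => hr _ _ n μ hμ w hw hs)
    (fun j ψ => vec B BC P (l ψ) j) ?_ (X.τ.comp φ₀) ?_ (X.τ.comp φ)
  · have e : (fun j => vec B BC P (l (X.τ.comp φ)) j) = vec B BC P φ := by rw [hl']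
    rw [e] at key
    exact key
  · intro j a ha
    refine Fin.addCases (fun i => ?_) (fun i => ?_) j
    · obtain ⟨α, hα⟩ := blk_eqv B i (pull P.iA a) (fun v hv => ha _ (P.iA_mem v hv))
      refine ⟨α, fun ψ => ?_⟩
      show vec B BC P (l ψ) (Fin.castAdd r i) a = ψ α
      rw [vec_left]
      show B.b.coord (l ψ, i) (pull P.iA a) = ψ α
      rw [hα]
      exact RingHom.congr_fun (hl ψ) α
    · obtain ⟨α, hα⟩ := blk_eqv BC i (pull P.iB a) (fun v hv => ha _ (P.iB_mem v hv))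
      refine ⟨inv α, fun ψ => ?_⟩
      show vec B BC P (l ψ) (Fin.natAdd r i) a = ψ (inv α)
      rw [vec_right]
      show BC.b.coord (gl X.c (l ψ), i) (pull P.iB a) = ψ (inv α)
      rw [hα]
      have h3 := RingHom.congr_fun (hl ψ) (inv α)
      rw [← h3]
      show X.τ (X.c (l ψ α)) = X.τ (l ψ (inv α))
      rw [hinv]
  · have e : (fun j => vec B BC P (l (X.τ.comp φ₀)) j) = vec B BC P φ₀ := by rw [hl']
    show Q _ _ _
    rw [e]
    exact h

/-- **THE OUTPUT OF S5**, a class for every label. -/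
theorem s5_all {Q : (T : AV) → (m : ℕ) → Hlg T m → Prop} (hQ : Cl Q) (t : Tp X) (C : AV)
    (hC : IsCM C) (BC : Blk X C t.E t.r) (hp : BC.Pure) (ht : ∀ φ, t.B.δ φ = BC.δ φ)
    (P : Pd t.T C) (h : ∀ φ : t.E →+* X.K, ∃ c : Hlg P.T (t.r + t.r), Q P.T (t.r + t.r) c ∧
      c (Fin.append (fun i => pull P.pA (t.B.b (φ, i)))
        fun i => pull P.pB (BC.b (gl X.c φ, i))) ≠ 0) : Nonempty (DA Q t) := by
  refine ⟨⟨C, hC, BC, hp, ht, fun φ P' i₁ i₂ h₁ h₂ => ?_⟩⟩
  obtain ⟨c, hc, hne⟩ := h φ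
  rw [wdg_vec t.B BC P' φ i₁ i₂ h₁ h₂]
  exact transp hQ t.B BC P P' φ (isol hQ t.B BC P φ c hc hne)

/-- **THE OUTPUT OF S5**, from one class with (rat). -/
theorem s5_rat {Q : (T : AV) → (m : ℕ) → Hlg T m → Prop} (hQ : Cl Q) (hr : RatQ Q) (t : Tp X)
    (C : AV) (hC : IsCM C) (BC : Blk X C t.E t.r) (hp : BC.Pure) (ht : ∀ φ, t.B.δ φ = BC.δ φ)
    (P : Pd t.T C) (φ₀ : t.E →+* X.K) (c : Hlg P.T (t.r + t.r)) (hc : Q P.T (t.r + t.r) c)
    (hne : c (Fin.append (fun i => pull P.pA (t.B.b (φ₀, i)))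
      fun i => pull P.pB (BC.b (gl X.c φ₀, i))) ≠ 0) : Nonempty (DA Q t) := by
  refine ⟨⟨C, hC, BC, hp, ht, fun φ P' i₁ i₂ h₁ h₂ => ?_⟩⟩
  rw [wdg_vec t.B BC P' φ i₁ i₂ h₁ h₂]
  refine transp hQ t.B BC P P' φ ?_
  exact all_of_one hQ hr t.B BC P t.inv t.hinv φ₀ (isol hQ t.B BC P φ₀ c hc hne) φ

end S5
end SE
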